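import Pool.Agent.L3E.UX.Dat

/-! The target (helper68). -/

set_option autoImplicit false

namespace Pool.Agent.L3E.UX

def tws : List (List ℕ) := [
  [2, 0, 1, 2, 0, 1, 3, 2, 0, 1],
  [2, 0, 1, 2, 0, 1, 3, 2, 1, 0],
  [2, 0, 1, 2, 1, 0, 3, 2, 0, 1],
  [2, 0, 1, 2, 1, 0, 3, 2, 1, 0],
  [2, 1, 0, 2, 0, 1, 3, 2, 0, 1],
  [2, 1, 0, 2, 0, 1, 3, 2, 1, 0],
  [2, 1, 0, 2, 1, 0, 3, 2, 0, 1],
  [2, 1, 0, 2, 1, 0, 3, 2, 1, 0],
  [2, 0, 1, 3, 2, 0, 1, 2, 0, 1],
  [2, 0, 1, 3, 2, 0, 1, 2, 1, 0],
  [2, 0, 1, 3, 2, 1, 0, 2, 0, 1],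
  [2, 0, 1, 3, 2, 1, 0, 2, 1, 0],
  [2, 1, 0, 3, 2, 0, 1, 2, 0, 1],
  [2, 1, 0, 3, 2, 0, 1, 2, 1, 0],
  [2, 1, 0, 3, 2, 1, 0, 2, 0, 1],
  [2, 1, 0, 3, 2, 1, 0, 2, 1, 0]]

def tss : List ℕ := [
0x2900004200002a000003000002000004000002000001000001000001,
0x3700004200002a000003000002000004000002000001000001000001,
0x1e00003d000028000002000003000004000002000001000001000001,
0x3100003d000028000002000003000004000002000001000001000001,
0x3500004700002e000004000002001000002000001000001000001000001,
0x3b00004700002e000004000002001000002000001000001000001000001,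
0xd000020000014000001000001000002000001000001000001000001,
0x10000020000014000001000001000002000001000001000001000001,
0x2051f91ec1e81e51df1c21c01ba1ad1a41a219e19319018e18d18c18a18818017616f1691601110fc0ec0e90e40e30d90d40cb0c90c80c70c60be0bc0bb0b30ac0a108f08e08107f07e03102c01d000033000020000016000015000008000002000001000001000001,
0x25000033000020000016000015000008000002000001000001000001,
0x1e81e51df1dd1dc1d71d61cc1c41c21c01be1b91b71a91a41a21a119f19819018f18e18d17115514b14a1491451431411311050f80f30ea0e70e40e30d40cb0c80c60bc0b70b60b50b30b00a109f07e07b0740720710350280260220001ea1e01de1dc1d91d410f10e0ff0f90f40ef04704604404203d03a03803300001f000018000015000008000002000001000001000001,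
0x2131fa1ea1e81e01de1dc11a1191161050fc0fa0f40ef0ea03d03703502f0290250001ea1e01de1dc1d91d410f10e0ff0f90f40ef04704604404203d03a03803300001f000018000015000008000002000001000001000001,
0x400001400000c00000900000f000006000001000001000001000001,
0x20f20c2042011f41f11f01e31df1de1d91d61d41d01cf1cd1ca1c918f16e16c16916716416116015c15915814f11a11911010f1000fc0fb0fa0f60f30ed0e60de0dc0db0da0d50ce0c90c70c50b40b20a90a20a009d09709509309108f08e08d08b08a08307b07806f06a03100f00e00b00001400000c00000900000f000006000001000001000001000001,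
0x1e81df1da1d91d61ad1a91a119f19e19819018e18a18818017917115d15715514d14b1491471110fc0f80f50f30ec0ea0e90e70e50e30d90be0bc0bb0b90b70ad08107f07e06c06306203702b02201900d00b00900400018818318117f17c17910e10c1080ff0f90b30b00ac09e09904703d02302102001b01901400000b00001000000f000006000001000001000001000001,
0x21320c2011fc1fb1fa1f01ea1e81e31de1da1d91d61d41d01cf1c91b91b518f18a18818517617416916816416116015c15915814f1161151121101011000fe0fb0fa0f60f40f30e60db0da0d50ce0c70c50b40a90a209d09b09709509309108f08e08b08a08608308007b07806f06a01901200800018818318117f17c17910e10c1080ff0f90b30b00ac09e09904703d02302102001b01901400000b00001000000f000006000001000001000001000001]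

theorem cT : ckT tb 63 tws tss 0 = true := by decide +kernel

end Pool.Agent.L3E.UX
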