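import Pool.Agent.L3E.UX.Sem5

/-!
# L3E, part (II) of (J1): the target sum (helper68)
-/

set_option autoImplicit false

namespace Pool.Agent.L3E.UX

theorem cw_cons (x : ℕ) (w : List ℕ) : cw (x :: w) = ec x + cw w := by
  funext i
  simp only [cw, ec, Pi.add_apply, List.count_cons]
  rw [add_comm]
  congr 1
  by_cases h : (i : ℕ) = x
  · subst h; simp
  · have h' : ¬ x = (i : ℕ) := fun e => h e.symm
    simp [h, h']

section target

variable {R : Type} [Ring R] (a : ℕ → R) (t : ℕ → Blk) (c : ℕ)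

theorem evw_sound (C : Ctx a t c) (w : List ℕ) :
    ∀ (V : R) (m : Fin 3 → ℕ) (B n s : ℕ) (k : ℕ → ℕ → Bool), (∀ x ∈ w, x ≤ 3) →
      LOK a t c V m B n → evw t c w B n s k = true →
      ∃ n' s' B', k n' s' = true ∧ LOK a t c (V * wv a w) (m + cw w) B' n' := by
  induction w with
  | nil =>
    intro V m B n s k _ hL h
    refine ⟨n, s, B, h, ?_⟩
    have e1 : wv a [] = 1 := rfl
    have e2 : cw [] = 0 := by funext i; simp [cw]
    rw [e1, e2, mul_one, add_zero]
    exact hL
  | cons x w ih =>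
    intro V m B n s k h3 hL h
    change mul1 t c B x n s (fun n' s' =>
      fr (Nat.add B (inc x)) fun B' => evw t c w B' n' s' k) = true at h
    obtain ⟨n1, s1, h1, L1⟩ := mul1_sound a t c C (h3 x (by simp)) hL h
    rw [fr_eq] at h1
    obtain ⟨n2, s2, B2, h2, L2⟩ := ih _ _ _ _ _ _ (fun y hy => h3 y (List.mem_cons_of_mem _ hy))
      L1 h1
    refine ⟨n2, s2, B2, h2, ?_⟩
    have e1 : wv a (x :: w) = a x * wv a w := rfl
    rw [e1, cw_cons, ← mul_assoc, ← add_assoc]
    exact L2

theorem ckT_sound (C : Ctx a t c) (hf : ∀ i, (t c).d ≤ i → fB a t c i ∈ NN a t c (dc c))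
    (h0 : 0 < (t 0).d) (h1 : wdi (t 0) 0 = 1) (ws : List (List ℕ)) :
    ∀ (ss : List ℕ) (acc : ℕ) (V : R), (∀ w ∈ ws, (∀ x ∈ w, x ≤ 3) ∧ cw w = dc c) →
      Fn (fB a t c) acc - V ∈ NN a t c (dc c) → ckT t c ws ss acc = true →
      V + (ws.map (wv a)).sum ∈ NN a t c (dc c) := by
  have hbig : ∀ i, 4096 ≤ i → fB a t 0 i = 0 := by
    intro i hi
    obtain ⟨c1, c2, _⟩ := ckB_parts (C.hB 0 (by norm_num))
    exact fB_big a t 0 i (by omega) c1
  have L0 : LOK a t c 1 0 0 1 := by
    refine ⟨rfl, fun _ i => Nat.zero_le _, ?_⟩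
    have e : Fn (fB a t 0) 1 = fB a t 0 0 := Fn_one _ hbig 0
    rw [e, fB_small a t 0 0 h0]
    unfold val
    rw [if_pos h0, h1, wl_small (by norm_num)]
    have : wv a [] - 1 = (0 : R) := by simp [wv]
    rw [this]
    exact (NN a t c _).zero_mem
  induction ws with
  | nil =>
    intro ss acc V _ hV h
    rw [List.map_nil, List.sum_nil, add_zero]
    have h2 : acc &&& (1 <<< (t c).d - 1) = 0 := Nat.eq_of_beq_eq_true h
    have h3 : Fn (fB a t c) acc ∈ NN a t c (dc c) := by
      refine Fn_mem _ _ _ fun i hi => ?_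
      by_cases hid : i < (t c).d
      · have := tb_mask acc (t c).d i
        rw [h2, hi, Nat.zero_testBit] at this
        simp [hid] at this
      · exact hf i (by omega)
    have := (NN a t c _).sub_mem h3 hV
    simpa using this
  | cons w ws ih =>
    intro ss acc V hw hV h
    cases ss with
    | nil => exact absurd h (by simp [ckT])
    | cons s ss =>
      change evw t c w 0 1 s (fun n _ => fr (Nat.xor acc n) fun a' => ckT t c ws ss a')
        = true at h
      obtain ⟨hw1, hw2⟩ := hw w (by simp)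
      obtain ⟨n', s', B', h3, hB, _, hL⟩ := evw_sound a t c C w _ _ _ _ _ _ hw1 L0 h
      rw [fr_eq] at h3
      rw [zero_add, hw2, en_dc C.hc] at hB
      subst hB
      rw [zero_add, hw2, one_mul] at hL
      have h4 := ih ss (acc ^^^ n') (V + wv a w) (fun w' hw' => hw w' (List.mem_cons_of_mem _ hw'))
        ?_ h3
      · rw [List.map_cons, List.sum_cons, ← add_assoc]
        exact h4
      · rw [Fn_xor C.h2]
        have e : Fn (fB a t B') acc + Fn (fB a t B') n' - (V + wv a w) =
            (Fn (fB a t B') acc - V) + (Fn (fB a t B') n' - wv a w) := by abel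
        rw [e]
        exact (NN a t B' _).add_mem hV hL

theorem target_sound {D : Set R} (h2 : (2 : R) = 0) (hsq : ∀ X ∈ D, X * X = 0)
    (hxy : ∀ X ∈ D, ∀ Y ∈ D, X * Y * X * Y = 0)
    (hcl : ∀ X ∈ D, ∀ Y ∈ D, (1 + Y) * X * (1 + Y) ∈ D) (ha : ∀ i, a i ∈ D)
    (hB : ∀ c, c < 64 → ckB t c = true)
    (hS : ∀ c, c < 64 → ∃ l, ckS t c l = true) (h0 : 0 < (t 0).d) (h1 : wdi (t 0) 0 = 1)
    (hc : c < 64) (ws : List (List ℕ)) (ss : List ℕ)
    (hw : ∀ w ∈ ws, (∀ x ∈ w, x ≤ 3) ∧ cw w = dc c) (h : ckT t c ws ss 0 = true) :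
    (ws.map (wv a)).sum ∈ K a (dc c) := by
  obtain ⟨C, k1, k2⟩ := all_ok a t hsq hxy hcl ha h2 hB hS c hc
  have := ckT_sound a t c C k2 h0 h1 ws ss 0 0 hw
    (by rw [Fn_zero, sub_zero]; exact (NN a t c _).zero_mem) h
  rw [zero_add] at this
  exact k1 this

end target

/-! ### words in a ring and in its opposite -/

section words

variable {R : Type} [Ring R]

def wsum (a : ℕ → R) (L : List (List ℕ)) : R := (L.map (wv a)).sum

def cat (L1 L2 : List (List ℕ)) : List (List ℕ) := L1.flatMap fun u => L2.map fun v => u ++ v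

theorem wv_append (a : ℕ → R) (u v : List ℕ) : wv a (u ++ v) = wv a u * wv a v := by
  simp [wv]

theorem wsum_append (a : ℕ → R) (L1 L2 : List (List ℕ)) :
    wsum a (L1 ++ L2) = wsum a L1 + wsum a L2 := by
  simp [wsum]

theorem wsum_cat (a : ℕ → R) (L1 L2 : List (List ℕ)) :
    wsum a (cat L1 L2) = wsum a L1 * wsum a L2 := by
  induction L1 with
  | nil => simp [wsum, cat]
  | cons u L1 ih =>
    have e1 : cat (u :: L1) L2 = L2.map (fun v => u ++ v) ++ cat L1 L2 := rfl
    have e2 : wsum a (u :: L1) = wv a u + wsum a L1 := by simp [wsum]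
    have e3 : ∀ L : List (List ℕ), wsum a (L.map (fun v => u ++ v)) = wv a u * wsum a L := by
      intro L
      induction L with
      | nil => simp [wsum]
      | cons v L ih2 =>
        have e4 : wsum a (v :: L) = wv a v + wsum a L := by simp [wsum]
        have e5 : wsum a ((v :: L).map (fun v => u ++ v)) =
          wv a (u ++ v) + wsum a (L.map (fun v => u ++ v)) := by simp [wsum]
        rw [e4, e5, ih2, wv_append, mul_add]
    rw [e1, wsum_append, ih, e2, add_mul, e3]

theorem wsum_perm (a : ℕ → R) {L1 L2 : List (List ℕ)} (h : L1.Perm L2) :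
    wsum a L1 = wsum a L2 := (h.map (wv a)).sum_eq

theorem wv_op (a : ℕ → R) (w : List ℕ) :
    MulOpposite.unop (wv (fun i => MulOpposite.op (a i)) w) = wv a w.reverse := by
  induction w with
  | nil => simp [wv]
  | cons x w ih =>
    have e1 : wv (fun i => MulOpposite.op (a i)) (x :: w) =
      MulOpposite.op (a x) * wv (fun i => MulOpposite.op (a i)) w := rfl
    rw [e1, MulOpposite.unop_mul, ih, List.reverse_cons, wv_snoc, MulOpposite.unop_op]

theorem wsum_op (a : ℕ → R) (L : List (List ℕ)) :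
    MulOpposite.unop (wsum (fun i => MulOpposite.op (a i)) L) =
      wsum a (L.map List.reverse) := by
  induction L with
  | nil => simp [wsum]
  | cons w L ih =>
    have e1 : wsum (fun i => MulOpposite.op (a i)) (w :: L) =
      wv (fun i => MulOpposite.op (a i)) w + wsum (fun i => MulOpposite.op (a i)) L := by
      simp [wsum]
    have e2 : wsum a ((w :: L).map List.reverse) =
      wv a w.reverse + wsum a (L.map List.reverse) := by simp [wsum]
    rw [e1, e2, MulOpposite.unop_add, wv_op, ih]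

theorem K_op (a : ℕ → R) (m : Fin 3 → ℕ) {r : Rᵐᵒᵖ}
    (h : r ∈ K (fun i => MulOpposite.op (a i)) m) : MulOpposite.unop r ∈ K a m := by
  unfold K at h
  induction h using AddSubgroup.closure_induction with
  | mem x hx =>
    obtain ⟨w, h1, h2, h3, rfl⟩ := hx
    rw [wv_op]
    have hc : cw w.reverse = cw w := by funext i; simp [cw]
    refine AddSubgroup.subset_closure ⟨w.reverse, fun l hl => h1 l (List.mem_reverse.1 hl), ?_, ?_,
      rfl⟩
    · rw [hc]; exact h2
    · rw [hc, List.count_reverse]; exact h3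
  | zero => exact (K a m).zero_mem
  | add x y _ _ hx hy => exact (K a m).add_mem hx hy
  | neg x _ hx => exact (K a m).neg_mem hx

end words

end Pool.Agent.L3E.UX
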