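import Pool.Agent.L3E.J1S
import Pool.Agent.L3E.UX.Sem6
import Pool.Agent.L3E.UX.Ka
import Pool.Agent.L3E.UX.K43
import Pool.Agent.L3E.UX.K46
import Pool.Agent.L3E.UX.K58
import Pool.Agent.L3E.UX.K59
import Pool.Agent.L3E.UX.K62
import Pool.Agent.L3E.UX.K63
import Pool.Agent.L3E.UX.KT

/-!
# L3E, part (II) of (J1): the identity `Stmt_UC` (helper68)
-/

set_option autoImplicit false

namespace Pool.Agent.L3E.UX

theorem allB : ∀ c, c < 64 → ckB tb c = true := by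
  intro c hc
  interval_cases c
  exacts [cB0, cB1, cB2, cB3, cB4, cB5, cB6, cB7, cB8, cB9, cB10, cB11, cB12, cB13, cB14, cB15, cB16, cB17, cB18, cB19, cB20, cB21, cB22, cB23, cB24, cB25, cB26, cB27, cB28, cB29, cB30, cB31, cB32, cB33, cB34, cB35, cB36, cB37, cB38, cB39, cB40, cB41, cB42, cB43, cB44, cB45, cB46, cB47, cB48, cB49, cB50, cB51, cB52, cB53, cB54, cB55, cB56, cB57, cB58, cB59, cB60, cB61, cB62, cB63]

theorem allS : ∀ c, c < 64 → ∃ l, ckS tb c l = true := by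
  intro c hc
  interval_cases c
  exacts [⟨_, cS0⟩, ⟨_, cS1⟩, ⟨_, cS2⟩, ⟨_, cS3⟩, ⟨_, cS4⟩, ⟨_, cS5⟩, ⟨_, cS6⟩, ⟨_, cS7⟩, ⟨_, cS8⟩, ⟨_, cS9⟩, ⟨_, cS10⟩, ⟨_, cS11⟩, ⟨_, cS12⟩, ⟨_, cS13⟩, ⟨_, cS14⟩, ⟨_, cS15⟩, ⟨_, cS16⟩, ⟨_, cS17⟩, ⟨_, cS18⟩, ⟨_, cS19⟩, ⟨_, cS20⟩, ⟨_, cS21⟩, ⟨_, cS22⟩, ⟨_, cS23⟩, ⟨_, cS24⟩, ⟨_, cS25⟩, ⟨_, cS26⟩, ⟨_, cS27⟩, ⟨_, cS28⟩, ⟨_, cS29⟩, ⟨_, cS30⟩, ⟨_, cS31⟩, ⟨_, cS32⟩, ⟨_, cS33⟩, ⟨_, cS34⟩, ⟨_, cS35⟩, ⟨_, cS36⟩, ⟨_, cS37⟩, ⟨_, cS38⟩, ⟨_, cS39⟩, ⟨_, cS40⟩, ⟨_, cS41⟩, ⟨_, cS42⟩, ⟨_, cS43⟩, ⟨_, cS44⟩, ⟨_, cS45⟩, ⟨_, cS46⟩, ⟨_, cS47⟩, ⟨_, cS48⟩, ⟨_, cS49⟩, ⟨_, cS50⟩, ⟨_, cS51⟩, ⟨_, cS52⟩, ⟨_, cS53⟩, ⟨_, cS54⟩, ⟨_, cS55⟩, ⟨_, cS56⟩, ⟨_, cS57⟩, ⟨_, cS58⟩, ⟨_, cS59⟩, ⟨_, cS60⟩, ⟨_, cS61⟩, ⟨_, cS62⟩, ⟨_, cS63⟩]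

theorem tb0d : 0 < (tb 0).d := by decide +kernel

theorem tb0w : wdi (tb 0) 0 = 1 := by decide +kernel

theorem tws_ok : ∀ w ∈ tws, (∀ x ∈ w, x ≤ 3) ∧ cw w = dc 63 := by decide +kernel

theorem dc63 : dc 63 = ![3, 3, 3] := by decide +kernel

def evL : List (List ℕ) := [[0, 1], [1, 0], [0, 1, 0], [1, 0, 1]]

def nL : List (List ℕ) := cat evL [[2]]

def kL : List (List ℕ) :=
  cat (cat (cat nL nL) [[3]]) nL ++ cat (cat nL [[3]]) (cat nL nL)

def isL (w : List ℕ) : Bool := Nat.beq w.length 10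

theorem kL_lead : (kL.filter isL).Perm (tws.map List.reverse) := by decide +kernel

theorem kL_rest : ∀ w ∈ kL.filter (fun w => !isL w), (∀ x ∈ w, x ≤ 3) ∧ 3 ≤ w.count 0 ∧
    3 ≤ w.count 1 ∧ 3 ≤ w.count 2 ∧ (4 ≤ w.count 0 ∨ 4 ≤ w.count 1) := by decide +kernel

section fin

variable {R : Type} [Ring R]

theorem kap_K (a : ℕ → R) {D : Set R} (h2 : (2 : R) = 0) (hsq : ∀ X ∈ D, X * X = 0)
    (hxy : ∀ X ∈ D, ∀ Y ∈ D, X * Y * X * Y = 0)
    (hcl : ∀ X ∈ D, ∀ Y ∈ D, (1 + Y) * X * (1 + Y) ∈ D) (ha : ∀ i, a i ∈ D) :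
    kap (a 0) (a 1) (a 2) (a 3) ∈ K a (dc 63) := by
  -- the sum of the leading words, from the opposite ring
  have h2' : (2 : Rᵐᵒᵖ) = 0 := by
    have : (2 : Rᵐᵒᵖ) = MulOpposite.op 2 := rfl
    rw [this, h2, MulOpposite.op_zero]
  have hlead : wsum a (tws.map List.reverse) ∈ K a (dc 63) := by
    rw [← wsum_op]
    refine K_op a (dc 63) ?_
    refine target_sound (fun i => MulOpposite.op (a i)) tb 63 (D := MulOpposite.unop ⁻¹' D) h2'
      ?_ ?_ ?_ (fun i => ha i) allB allS tb0d tb0w (by norm_num) tws tss tws_ok cT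
    · intro X hX
      have := hsq _ hX
      rw [← MulOpposite.unop_mul] at this
      exact MulOpposite.unop_injective this
    · intro X hX Y hY
      have := hxy _ hY _ hX
      rw [← MulOpposite.unop_mul, ← MulOpposite.unop_mul, ← MulOpposite.unop_mul] at this
      have e : X * Y * X * Y = X * (Y * (X * Y)) := by noncomm_ring
      rw [e]
      exact MulOpposite.unop_injective this
    · intro X hX Y hY
      have := hcl _ hX _ hY
      change MulOpposite.unop ((1 + Y) * X * (1 + Y)) ∈ D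
      rw [MulOpposite.unop_mul, MulOpposite.unop_mul, MulOpposite.unop_add, MulOpposite.unop_one,
        ← mul_assoc]
      exact this
  have e1 : evx (a 0) (a 1) = wsum a evL := by
    simp [evx, wsum, evL, wv, mul_assoc, add_assoc]
  have e2 : a 2 = wsum a [[2]] := by simp [wsum, wv]
  have e3 : a 3 = wsum a [[3]] := by simp [wsum, wv]
  have ek : kap (a 0) (a 1) (a 2) (a 3) = wsum a kL := by
    unfold kap kL nL
    rw [wsum_append]
    simp only [wsum_cat]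
    rw [← e1, ← e2, ← e3]
  have es : wsum a kL = wsum a (kL.filter isL) + wsum a (kL.filter (fun w => !isL w)) := by
    rw [← wsum_append]
    exact wsum_perm a (List.filter_append_perm isL kL).symm
  rw [ek, es]
  refine (K a _).add_mem ?_ ?_
  · rw [wsum_perm a kL_lead]; exact hlead
  · have hr := kL_rest
    revert hr
    generalize kL.filter (fun w => !isL w) = L
    intro hr
    induction L with
    | nil => exact (K a _).zero_mem
    | cons w L ih =>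
      have e4 : wsum a (w :: L) = wv a w + wsum a L := by simp [wsum]
      rw [e4]
      refine (K a _).add_mem ?_ (ih fun w' hw' => hr w' (List.mem_cons_of_mem _ hw'))
      obtain ⟨r1, r2, r3, r4, r5⟩ := hr w (by simp)
      refine AddSubgroup.subset_closure ⟨w, r1, ?_, Or.inl ?_, rfl⟩
      · rw [dc63]
        intro i
        revert i
        exact fin3 r2 r3 r4
      · intro h
        rw [dc63] at h
        have h0 := congrFun h 0
        have h1 := congrFun h 1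
        simp [cw] at h0 h1
        omega

theorem lift4 (w : List ℕ) (h : ∀ x ∈ w, x ≤ 3) :
    ∃ w' : List (Fin 4), w = w'.map Fin.val := by
  induction w with
  | nil => exact ⟨[], rfl⟩
  | cons x w ih =>
    obtain ⟨w', hw'⟩ := ih (fun y hy => h y (List.mem_cons_of_mem _ hy))
    have := h x (by simp)
    refine ⟨⟨x, by omega⟩ :: w', ?_⟩
    rw [List.map_cons, ← hw']

theorem K_Kc (X Y Z U : R) (a : ℕ → R) (ha : ∀ i : Fin 4, a i = ![X, Y, Z, U] i) :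
    K a (dc 63) ≤ Kc X Y Z U := by
  unfold K
  rw [AddSubgroup.closure_le]
  rintro _ ⟨w, h1, h2, h3, rfl⟩
  obtain ⟨w', rfl⟩ := lift4 w h1
  have hc : ∀ i : Fin 4, (w'.map Fin.val).count (i : ℕ) = w'.count i := fun i =>
    List.count_map_of_injective w' _ Fin.val_injective i
  rw [dc63] at h2 h3
  have c0 := hc 0
  have c1 := hc 1
  have c2 := hc 2
  have c3 := hc 3
  have g0 := h2 0
  have g1 := h2 1
  have g2 := h2 2
  simp only [cw] at g0 g1 g2
  refine AddSubgroup.subset_closure ⟨w', ?_, ?_, ?_, ?_, ?_⟩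
  · rw [← c0]; exact g0
  · rw [← c1]; exact g1
  · rw [← c2]; exact g2
  · rcases h3 with h3 | h3
    · by_contra hcon
      simp only [not_or, not_le] at hcon
      apply h3
      funext i
      revert i
      refine fin3 ?_ ?_ ?_
      · change 3 = _; change 3 ≤ _ at g0
        have : cw (w'.map Fin.val) 0 = w'.count 0 := c0
        rw [this]; rw [show ((0 : Fin 3) : ℕ) = ((0 : Fin 4) : ℕ) from rfl, c0] at g0; omega
      · change 3 = _; change 3 ≤ _ at g1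
        have : cw (w'.map Fin.val) 1 = w'.count 1 := c1
        rw [this]; rw [show ((1 : Fin 3) : ℕ) = ((1 : Fin 4) : ℕ) from rfl, c1] at g1; omega
      · change 3 = _; change 3 ≤ _ at g2
        have : cw (w'.map Fin.val) 2 = w'.count 2 := c2
        rw [this]; rw [show ((2 : Fin 3) : ℕ) = ((2 : Fin 4) : ℕ) from rfl, c2] at g2; omega
    · right; right; right
      rw [← c3]; exact h3
  · unfold wv
    rw [List.map_map]
    congr 1
    exact List.map_congr_left fun i _ => ha i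

end fin

/-- the identity (C) -/
theorem uc_proof : Stmt_UC := by
  intro R _ D h2 hsq hxy hcl X hX Y hY Z hZ U hU
  have key := kap_K (fun i => if i = 0 then X else if i = 1 then Y else if i = 2 then Z else U)
    h2 hsq hxy hcl (fun i => by
      split_ifs
      · exact hX
      · exact hY
      · exact hZ
      · exact hU)
  refine K_Kc X Y Z U _ ?_ key
  intro i
  fin_cases i <;> simp

end Pool.Agent.L3E.UX
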