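import Mathlib

/-!
# L3E, part (II) of (J1): words, contents, instances (helper68)
-/

set_option autoImplicit false

namespace Pool.Agent.L3E.UX

variable {R : Type} [Ring R]

/-- content of a word in `x, y, z` -/
def cw (w : List ℕ) : Fin 3 → ℕ := fun i => w.count (i : ℕ)

/-- value of a word -/
def wv (a : ℕ → R) (w : List ℕ) : R := (w.map a).prod

def Lt (w : List ℕ) : Prop := ∀ l ∈ w, l ≤ 3

/-- unit contents, `ec 3 = 0` -/
def ec (x : ℕ) : Fin 3 → ℕ := fun i => if (i : ℕ) = x then 1 else 0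

def W (a : ℕ → R) (c : Fin 3 → ℕ) : AddSubgroup R :=
  AddSubgroup.closure {x | ∃ w, Lt w ∧ c ≤ cw w ∧ x = wv a w}

def Hh (a : ℕ → R) (c : Fin 3 → ℕ) : AddSubgroup R :=
  AddSubgroup.closure {x | ∃ w, Lt w ∧ c ≤ cw w ∧ c ≠ cw w ∧ x = wv a w}

def K (a : ℕ → R) (c : Fin 3 → ℕ) : AddSubgroup R :=
  AddSubgroup.closure {x | ∃ w, Lt w ∧ c ≤ cw w ∧ (c ≠ cw w ∨ 4 ≤ w.count 3) ∧ x = wv a w}

theorem wv_snoc (a : ℕ → R) (w : List ℕ) (x : ℕ) : wv a (w ++ [x]) = wv a w * a x := by
  simp [wv]

theorem cw_snoc (w : List ℕ) (x : ℕ) : cw (w ++ [x]) = cw w + ec x := by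
  funext i
  simp only [cw, ec, Pi.add_apply, List.count_append, List.count_singleton]
  congr 1
  by_cases h : (i : ℕ) = x
  · subst h; simp
  · have h' : ¬ x = (i : ℕ) := fun e => h e.symm
    simp [h, h']

theorem Lt_snoc {w : List ℕ} {x : ℕ} (h : Lt w) (hx : x ≤ 3) : Lt (w ++ [x]) := by
  intro l hl
  rcases List.mem_append.1 hl with h1 | h1
  · exact h l h1
  · rw [List.mem_singleton] at h1; omega

theorem ec_three : ec 3 = 0 := by
  funext i
  have : (i : ℕ) < 3 := i.2
  simp only [ec, Pi.zero_apply]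
  rw [if_neg (by omega)]

theorem mul_closure {s : Set R} {A : AddSubgroup R} (b : R) (h : ∀ x ∈ s, x * b ∈ A) :
    ∀ x ∈ AddSubgroup.closure s, x * b ∈ A := by
  intro x hx
  induction hx using AddSubgroup.closure_induction with
  | mem x hx => exact h x hx
  | zero => rw [zero_mul]; exact A.zero_mem
  | add x y _ _ hx hy => rw [add_mul]; exact A.add_mem hx hy
  | neg x _ hx => rw [neg_mul]; exact A.neg_mem hx

theorem W_mul (a : ℕ → R) (c : Fin 3 → ℕ) {x : ℕ} (hx : x ≤ 3) {r : R} (hr : r ∈ W a c) :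
    r * a x ∈ W a (c + ec x) := by
  refine mul_closure (a x) ?_ r hr
  rintro _ ⟨w, h1, h2, rfl⟩
  refine AddSubgroup.subset_closure ⟨w ++ [x], Lt_snoc h1 hx, ?_, (wv_snoc a w x).symm⟩
  rw [cw_snoc]; exact add_le_add_left h2 _

theorem Hh_mul (a : ℕ → R) (c : Fin 3 → ℕ) {x : ℕ} (hx : x ≤ 3) {r : R} (hr : r ∈ Hh a c) :
    r * a x ∈ Hh a (c + ec x) := by
  refine mul_closure (a x) ?_ r hr
  rintro _ ⟨w, h1, h2, h3, rfl⟩
  refine AddSubgroup.subset_closure ⟨w ++ [x], Lt_snoc h1 hx, ?_, ?_, (wv_snoc a w x).symm⟩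
  · rw [cw_snoc]; exact add_le_add_left h2 _
  · rw [cw_snoc]; intro h; exact h3 (add_right_cancel h)

theorem K_mul (a : ℕ → R) (c : Fin 3 → ℕ) {x : ℕ} (hx : x ≤ 3) {r : R} (hr : r ∈ K a c) :
    r * a x ∈ K a (c + ec x) := by
  refine mul_closure (a x) ?_ r hr
  rintro _ ⟨w, h1, h2, h3, rfl⟩
  refine AddSubgroup.subset_closure ⟨w ++ [x], Lt_snoc h1 hx, ?_, ?_, (wv_snoc a w x).symm⟩
  · rw [cw_snoc]; exact add_le_add_left h2 _
  · rcases h3 with h3 | h3
    · left; rw [cw_snoc]; intro h; exact h3 (add_right_cancel h)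
    · right; rw [List.count_append]; omega

theorem W_mono (a : ℕ → R) {c c' : Fin 3 → ℕ} (h : c ≤ c') : W a c' ≤ W a c :=
  AddSubgroup.closure_mono (by rintro _ ⟨w, h1, h2, rfl⟩; exact ⟨w, h1, h.trans h2, rfl⟩)

theorem W_le_Hh (a : ℕ → R) {c c' : Fin 3 → ℕ} (h : c ≤ c') (h' : c ≠ c') : W a c' ≤ Hh a c := by
  refine AddSubgroup.closure_mono ?_
  rintro _ ⟨w, h1, h2, rfl⟩
  refine ⟨w, h1, h.trans h2, ?_, rfl⟩
  rintro rfl
  exact h' (le_antisymm h h2)

theorem Hh_le_W (a : ℕ → R) (c : Fin 3 → ℕ) : Hh a c ≤ W a c :=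
  AddSubgroup.closure_mono (by rintro _ ⟨w, h1, h2, _, rfl⟩; exact ⟨w, h1, h2, rfl⟩)

theorem Hh_le_K (a : ℕ → R) (c : Fin 3 → ℕ) : Hh a c ≤ K a c :=
  AddSubgroup.closure_mono (by rintro _ ⟨w, h1, h2, h3, rfl⟩; exact ⟨w, h1, h2, Or.inl h3, rfl⟩)

theorem K_le_W (a : ℕ → R) (c : Fin 3 → ℕ) : K a c ≤ W a c :=
  AddSubgroup.closure_mono (by rintro _ ⟨w, h1, h2, _, rfl⟩; exact ⟨w, h1, h2, rfl⟩)

/-- operations: a fixed letter, a factor `1 + U`, a tag `j` with its letter -/
inductive Op where
  | X : ℕ → Op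
  | H : Op
  | G : ℕ → ℕ → Op

/-- value for a set `S` of tags; lists of operations are reversed (last operation first) -/
def evS (a : ℕ → R) (g : R) (S : Finset ℕ) : List Op → R
  | [] => g
  | Op.X x :: l => evS a g S l * a x
  | Op.H :: l => evS a g S l * (1 + a 3)
  | Op.G j x :: l => evS a g S l * (if j ∈ S then 1 + a x else 1)

/-- every tag of `M` exactly once -/
def Vf (a : ℕ → R) (g : R) : List Op → Finset ℕ → R
  | [], M => if M = ∅ then g else 0
  | Op.X x :: l, M => Vf a g l M * a x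
  | Op.H :: l, M => Vf a g l M + Vf a g l M * a 3
  | Op.G j x :: l, M => Vf a g l M + if j ∈ M then Vf a g l (M.erase j) * a x else 0

/-- every tag of `M` at least once -/
def Tf (a : ℕ → R) (g : R) (l : List Op) (M : Finset ℕ) : R := ∑ S ∈ M.powerset, evS a g S l

theorem ch2 (h2 : (2 : R) = 0) (x : R) : x + x = 0 := by rw [← two_mul, h2, zero_mul]

theorem sub_add2 (h2 : (2 : R) = 0) (x y : R) : x - y = x + y := by
  have := ch2 h2 y
  rw [sub_eq_add_neg, neg_eq_of_add_eq_zero_left this]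

theorem Tf_nil (h2 : (2 : R) = 0) (a : ℕ → R) (g : R) (M : Finset ℕ) :
    Tf a g [] M = if M = ∅ then g else 0 := by
  simp only [Tf, evS, Finset.sum_const, Finset.card_powerset]
  split_ifs with h
  · subst h; simp
  · have : 0 < M.card := Finset.card_pos.2 (Finset.nonempty_iff_ne_empty.2 h)
    obtain ⟨k, hk⟩ := Nat.exists_eq_succ_of_ne_zero this.ne'
    rw [hk, pow_succ, mul_comm, mul_smul, two_smul]
    exact ch2 h2 _

theorem Tf_X (a : ℕ → R) (g : R) (x : ℕ) (l : List Op) (M : Finset ℕ) :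
    Tf a g (Op.X x :: l) M = Tf a g l M * a x := by
  simp only [Tf, evS, Finset.sum_mul]

theorem Tf_H (a : ℕ → R) (g : R) (l : List Op) (M : Finset ℕ) :
    Tf a g (Op.H :: l) M = Tf a g l M + Tf a g l M * a 3 := by
  simp only [Tf, evS, mul_add, mul_one]
  rw [Finset.sum_add_distrib, Finset.sum_mul]

theorem Tf_G_notMem (a : ℕ → R) (g : R) (j x : ℕ) (l : List Op) (M : Finset ℕ) (h : j ∉ M) :
    Tf a g (Op.G j x :: l) M = Tf a g l M := by
  simp only [Tf, evS]
  refine Finset.sum_congr rfl ?_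
  intro S hS
  rw [if_neg (fun h' => h (Finset.mem_powerset.1 hS h')), mul_one]

theorem Tf_split (a : ℕ → R) (g : R) (j : ℕ) (l : List Op) (M : Finset ℕ) :
    Tf a g l M = Tf a g l (M.erase j) + ∑ S ∈ M.powerset.filter (fun S => j ∈ S), evS a g S l := by
  simp only [Tf]
  rw [← Finset.sum_filter_add_sum_filter_not M.powerset (fun S => j ∈ S), add_comm]
  congr 1
  refine Finset.sum_congr ?_ (fun _ _ => rfl)
  ext S
  simp only [Finset.mem_filter, Finset.mem_powerset]
  constructor
  · rintro ⟨h1, h2⟩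
    exact Finset.subset_erase.2 ⟨h1, h2⟩
  · intro h1
    exact ⟨(Finset.subset_erase.1 h1).1, (Finset.subset_erase.1 h1).2⟩

theorem Tf_G_mem (h2 : (2 : R) = 0) (a : ℕ → R) (g : R) (j x : ℕ) (l : List Op) (M : Finset ℕ)
    (h : j ∈ M) : Tf a g (Op.G j x :: l) M =
      Tf a g l M + Tf a g l M * a x + Tf a g l (M.erase j) * a x := by
  have e1 : Tf a g (Op.G j x :: l) M =
      Tf a g l M + (∑ S ∈ M.powerset.filter (fun S => j ∈ S), evS a g S l) * a x := by
    simp only [Tf, evS]
    rw [Finset.sum_mul, Finset.sum_filter, ← Finset.sum_add_distrib]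
    refine Finset.sum_congr rfl ?_
    intro S _
    by_cases hj : j ∈ S
    · simp only [hj, if_true, mul_add, mul_one]
    · simp only [hj, if_false, mul_one, add_zero]
  have e2 : (∑ S ∈ M.powerset.filter (fun S => j ∈ S), evS a g S l) =
      Tf a g l M + Tf a g l (M.erase j) := by
    rw [Tf_split a g j l M]
    have := ch2 h2 (Tf a g l (M.erase j))
    calc (∑ S ∈ M.powerset.filter (fun S => j ∈ S), evS a g S l)
        = (Tf a g l (M.erase j) + Tf a g l (M.erase j)) +
          ∑ S ∈ M.powerset.filter (fun S => j ∈ S), evS a g S l := by rw [this, zero_add]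
      _ = _ := by abel
  rw [e1, e2, add_mul, add_assoc]

/-- content of the words with tags `M` -/
def bs : List Op → (Fin 3 → ℕ)
  | [] => 0
  | Op.X x :: l => bs l + ec x
  | Op.H :: l => bs l
  | Op.G _ _ :: l => bs l

def ct (tl : ℕ → ℕ) (cg : Fin 3 → ℕ) (l : List Op) (M : Finset ℕ) : Fin 3 → ℕ :=
  cg + bs l + ∑ j ∈ M, ec (tl j)

theorem dif (h2 : (2 : R) = 0) (a : ℕ → R) (g : R) (tl : ℕ → ℕ) (cg : Fin 3 → ℕ)
    (hg : g ∈ W a cg) (l : List Op)
    (hX : ∀ x, Op.X x ∈ l → x ≤ 3) (hG : ∀ j x, Op.G j x ∈ l → x ≤ 2 ∧ tl j = x)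
    (M : Finset ℕ) :
    Tf a g l M ∈ W a (ct tl cg l M) ∧ Tf a g l M - Vf a g l M ∈ Hh a (ct tl cg l M) := by
  induction l generalizing M with
  | nil =>
    rw [Tf_nil h2]
    simp only [Vf, sub_self]
    refine ⟨?_, (Hh a _).zero_mem⟩
    split_ifs with h
    · subst h
      simpa [ct, bs] using hg
    · exact (W a _).zero_mem
  | cons o l ih =>
    have hX' : ∀ x, Op.X x ∈ l → x ≤ 3 := fun x hx => hX x (List.mem_cons_of_mem _ hx)
    have hG' : ∀ j x, Op.G j x ∈ l → x ≤ 2 ∧ tl j = x :=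
      fun j x hx => hG j x (List.mem_cons_of_mem _ hx)
    have ih' := ih hX' hG'
    cases o with
    | X x =>
      have hx : x ≤ 3 := hX x (by simp)
      obtain ⟨i1, i2⟩ := ih' M
      have e : ct tl cg (Op.X x :: l) M = ct tl cg l M + ec x := by
        simp only [ct, bs]; abel
      rw [Tf_X, e]
      refine ⟨W_mul a _ hx i1, ?_⟩
      simp only [Vf]
      rw [← sub_mul]
      exact Hh_mul a _ hx i2
    | H =>
      obtain ⟨i1, i2⟩ := ih' M
      have e : ct tl cg (Op.H :: l) M = ct tl cg l M := rfl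
      rw [Tf_H, e]
      have j1 := W_mul a _ (le_refl 3) i1
      have j2 := Hh_mul a _ (le_refl 3) i2
      rw [ec_three, add_zero] at j1 j2
      refine ⟨(W a _).add_mem i1 j1, ?_⟩
      simp only [Vf]
      have e3 : Tf a g l M + Tf a g l M * a 3 - (Vf a g l M + Vf a g l M * a 3) =
        (Tf a g l M - Vf a g l M) + (Tf a g l M - Vf a g l M) * a 3 := by
        rw [sub_mul]; abel
      rw [e3]
      exact (Hh a _).add_mem i2 j2
    | G j x =>
      obtain ⟨hx2, htl⟩ := hG j x (by simp)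
      obtain ⟨i1, i2⟩ := ih' M
      have e : ct tl cg (Op.G j x :: l) M = ct tl cg l M := rfl
      rw [e]
      by_cases hj : j ∈ M
      · rw [Tf_G_mem h2 a g j x l M hj]
        obtain ⟨k1, k2⟩ := ih' (M.erase j)
        have hx3 : x ≤ 3 := by omega
        have e4 : ct tl cg l (M.erase j) + ec x = ct tl cg l M := by
          simp only [ct]
          rw [← Finset.sum_erase_add M _ hj, htl]; abel
        have l1 := W_mul a _ hx3 i1
        have l2 := W_mul a _ hx3 k1
        have l3 := Hh_mul a _ hx3 k2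
        rw [e4] at l2 l3
        have hle : ct tl cg l M ≤ ct tl cg l M + ec x := le_self_add
        have hne : ct tl cg l M ≠ ct tl cg l M + ec x := by
          intro h
          have h5 := congrFun h ⟨x, by omega⟩
          simp [ec] at h5
        have l4 := W_le_Hh a hle hne l1
        refine ⟨(W a _).add_mem ((W a _).add_mem i1 (Hh_le_W a _ l4)) l2, ?_⟩
        simp only [Vf, hj, if_true]
        have e5 : Tf a g l M + Tf a g l M * a x + Tf a g l (M.erase j) * a x -
            (Vf a g l M + Vf a g l (M.erase j) * a x) =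
          (Tf a g l M - Vf a g l M) + Tf a g l M * a x +
            (Tf a g l (M.erase j) - Vf a g l (M.erase j)) * a x := by
          rw [sub_mul]; abel
        rw [e5]
        exact (Hh a _).add_mem ((Hh a _).add_mem i2 l4) l3
      · rw [Tf_G_notMem a g j x l M hj]
        simp only [Vf, hj, if_false, add_zero]
        exact ⟨i1, i2⟩

theorem evS_append (a : ℕ → R) (g : R) (S : Finset ℕ) (l1 l2 : List Op) :
    evS a g S (l1 ++ l2) = evS a (evS a g S l2) S l1 := by
  induction l1 with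
  | nil => rfl
  | cons o l ih => cases o <;> simp only [List.cons_append, evS, ih]

/-- factor of an operation -/
def fac (a : ℕ → R) (S : Finset ℕ) : Op → R
  | Op.X x => a x
  | Op.H => 1 + a 3
  | Op.G j x => if j ∈ S then 1 + a x else 1

theorem evS_eq (a : ℕ → R) (g : R) (S : Finset ℕ) (l : List Op) :
    evS a g S l = g * (l.reverse.map (fac a S)).prod := by
  induction l with
  | nil => simp [evS]
  | cons o l ih => cases o <;> simp [evS, fac, ih, mul_assoc]

section law

variable {a : ℕ → R} {D : Set R} (h2 : (2 : R) = 0) (hsq : ∀ X ∈ D, X * X = 0)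
  (hxy : ∀ X ∈ D, ∀ Y ∈ D, X * Y * X * Y = 0)
  (hcl : ∀ X ∈ D, ∀ Y ∈ D, (1 + Y) * X * (1 + Y) ∈ D) (ha : ∀ i, a i ∈ D)

/-- a hat: not a fixed letter -/
def isHat : Op → Prop
  | Op.X _ => False
  | _ => True

include h2 hsq ha in
theorem fac_sq (S : Finset ℕ) (o : Op) (ho : isHat o) : fac a S o * fac a S o = 1 := by
  have key : ∀ i, (1 + a i) * (1 + a i) = 1 := by
    intro i
    have := hsq (a i) (ha i)
    have e : (1 + a i) * (1 + a i) = 1 + (a i + a i) + a i * a i := by noncomm_ring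
    rw [e, this, ch2 h2, add_zero, add_zero]
  cases o with
  | X x => exact absurd ho (by simp [isHat])
  | H => exact key 3
  | G j x =>
    simp only [fac]
    split_ifs
    · exact key x
    · exact one_mul 1

include hcl ha in
theorem conj_mem (S : Finset ℕ) (P : List Op) (hP : ∀ o ∈ P, isHat o) (Y : R) (hY : Y ∈ D) :
    (P.map (fac a S)).prod * Y * (P.reverse.map (fac a S)).prod ∈ D := by
  induction P generalizing Y with
  | nil => simpa using hY
  | cons o P ih =>
    have ih' := ih (fun o ho => hP o (List.mem_cons_of_mem _ ho)) Y hY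
    simp only [List.map_cons, List.prod_cons, List.reverse_cons, List.map_append, List.prod_append,
      List.map_nil, List.prod_nil, mul_one]
    have e : fac a S o * (P.map (fac a S)).prod * Y * ((P.reverse.map (fac a S)).prod * fac a S o) =
      fac a S o * ((P.map (fac a S)).prod * Y * (P.reverse.map (fac a S)).prod) * fac a S o := by
      noncomm_ring
    rw [e]
    have ho := hP o (by simp)
    cases o with
    | X x => exact absurd ho (by simp [isHat])
    | H => exact hcl _ ih' _ (ha 3)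
    | G j x =>
      simp only [fac]
      split_ifs
      · exact hcl _ ih' _ (ha x)
      · simpa using ih'

include h2 hsq ha in
theorem prod_inv (S : Finset ℕ) (P : List Op) (hP : ∀ o ∈ P, isHat o) :
    (P.reverse.map (fac a S)).prod * (P.map (fac a S)).prod = 1 := by
  induction P with
  | nil => simp
  | cons o P ih =>
    have ih' := ih (fun o ho => hP o (List.mem_cons_of_mem _ ho))
    simp only [List.map_cons, List.prod_cons, List.reverse_cons, List.map_append, List.prod_append,
      List.map_nil, List.prod_nil, mul_one]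
    have e : (P.reverse.map (fac a S)).prod * fac a S o * (fac a S o * (P.map (fac a S)).prod) =
      (P.reverse.map (fac a S)).prod * (fac a S o * fac a S o) * (P.map (fac a S)).prod := by
      noncomm_ring
    rw [e, fac_sq h2 hsq ha S o (hP o (by simp)), mul_one, ih']

/-- the reversed operation list of an instance; `P` is the list of hats in reading order -/
def iw (xa xb : ℕ) (P : List Op) : List Op :=
  Op.X xb :: (P.reverse ++ Op.X xa :: (P ++ Op.X xb :: (P.reverse ++ [Op.X xa])))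

include h2 hsq hxy hcl ha in
theorem evS_iw (g : R) (S : Finset ℕ) (xa xb : ℕ) (P : List Op) (hP : ∀ o ∈ P, isHat o) :
    evS a g S (iw xa xb P) = 0 := by
  rw [evS_eq]
  have e1 : (iw xa xb P).reverse = [Op.X xa] ++ P ++ [Op.X xb] ++ P.reverse ++ [Op.X xa] ++ P ++
      [Op.X xb] := by
    simp [iw]
  rw [e1]
  simp only [List.map_append, List.prod_append, List.map_cons, List.map_nil, List.prod_cons,
    List.prod_nil, mul_one, fac]
  set q := (P.map (fac a S)).prod with hq
  set q' := (P.reverse.map (fac a S)).prod with hq'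
  have h1 : q' * q = 1 := prod_inv h2 hsq ha S P hP
  have h3 : q * a xb * q' ∈ D := conj_mem hcl ha S P hP _ (ha xb)
  have h4 := hxy (a xa) (ha xa) _ h3
  have e2 : a xa * q * a xb * q' * a xa * q * a xb =
      a xa * (q * a xb * q') * a xa * (q * a xb * q') * q := by
    have : a xa * (q * a xb * q') * a xa * (q * a xb * q') * q =
      a xa * q * a xb * q' * a xa * q * a xb * (q' * q) := by noncomm_ring
    rw [this, h1, mul_one]
  rw [e2, h4, zero_mul, mul_zero]

include h2 hsq hxy hcl ha in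
/-- the multilinear part of an instance is a sum of larger words -/
theorem Vf_iw (g : R) (tl : ℕ → ℕ) (cg : Fin 3 → ℕ) (hg : g ∈ W a cg) (xa xb : ℕ) (hxa : xa ≤ 3)
    (hxb : xb ≤ 3) (P : List Op) (hP : ∀ o ∈ P, isHat o)
    (hG : ∀ j x, Op.G j x ∈ P → x ≤ 2 ∧ tl j = x) (M : Finset ℕ) :
    Vf a g (iw xa xb P) M ∈ Hh a (ct tl cg (iw xa xb P) M) := by
  have hX : ∀ x, Op.X x ∈ iw xa xb P → x ≤ 3 := by
    intro x hx
    simp only [iw, List.mem_cons, List.mem_append, List.mem_reverse, Op.X.injEq, List.not_mem_nil,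
      or_false] at hx
    have hn : Op.X x ∉ P := fun h => hP _ h
    rcases hx with h | h | h | h | h | h | h
    · omega
    · exact absurd h hn
    · omega
    · exact absurd h hn
    · omega
    · exact absurd h hn
    · omega
  have hG' : ∀ j x, Op.G j x ∈ iw xa xb P → x ≤ 2 ∧ tl j = x := by
    intro j x hx
    simp only [iw, List.mem_cons, List.mem_append, List.mem_reverse, reduceCtorEq, false_or,
      List.not_mem_nil, or_false] at hx
    rcases hx with h | h | h
    · exact hG j x h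
    · exact hG j x h
    · exact hG j x h
  have key := (dif h2 a g tl cg hg (iw xa xb P) hX hG' M).2
  have h0 : Tf a g (iw xa xb P) M = 0 :=
    Finset.sum_eq_zero fun S _ => evS_iw h2 hsq hxy hcl ha g S xa xb P hP
  rw [h0, zero_sub] at key
  simpa using (Hh a _).neg_mem key

end law

end Pool.Agent.L3E.UX
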