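import Mathlib

/-!
# L3E, part (II) of (J1): kernel functions (helper68)

Everything is evaluated by the kernel; only the accelerated operations on natural numbers and
recursors are used. See `Sem.lean` for the meaning.
-/

set_option autoImplicit false

namespace Pool.Agent.L3E.UX

/-- Tables of one block. `d`: dimension; `dp`: `d` plus the number of nontrivial pairs;
`wd`: codes of the basis words (32 bits each); `df`: definition of the basis words (16 bits each:
last letter + 4 * index of the prefix); `pr`: nontrivial pairs (16 bits each: letter + 4 * index);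
`F`: rows of the nontrivial pairs (`d` bits each); `p0 .. p3`: pointer tables (12 bits each). -/
structure Blk where
  d : ℕ
  dp : ℕ
  wd : ℕ
  df : ℕ
  pr : ℕ
  F : ℕ
  p0 : ℕ
  p1 : ℕ
  p2 : ℕ
  p3 : ℕ

/-- joins chunks of 40000 bits -/
noncomputable def jn (l : List ℕ) : ℕ :=
  List.rec (motive := fun _ => ℕ) 0 (fun a _ ih => Nat.add a (Nat.shiftLeft ih 40000)) l

/-- selection among four -/
noncomputable def sel (p0 p1 p2 p3 x : ℕ) : ℕ :=
  Nat.rec (motive := fun _ => ℕ) p0 (fun x1 _ => Nat.rec (motive := fun _ => ℕ) p1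
    (fun x2 _ => Nat.rec (motive := fun _ => ℕ) p2 (fun _ _ => p3) x2) x1) x

/-- forces the evaluation of `n` -/
noncomputable def fr (n : ℕ) (f : ℕ → Bool) : Bool :=
  Nat.rec (motive := fun _ => Bool) (f 0) (fun m _ => f (Nat.succ m)) n

/-- conditional -/
noncomputable def ifb (b : Bool) (t e : Bool) : Bool := Bool.rec (motive := fun _ => Bool) e t b

/-- the row (with its cover bit) of a pointer -/
noncomputable def row (d dp md F e0 : ℕ) (k : ℕ → Bool) : Bool :=
  Nat.rec (motive := fun _ => Bool) (k 0)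
    (fun e _ => Bool.rec (motive := fun _ => Bool)
      (k (Nat.shiftLeft 1 e))
      (Bool.rec (motive := fun _ => Bool)
        (k (Nat.xor (Nat.shiftLeft 1 e)
          (Nat.land (Nat.shiftRight F (Nat.mul d (Nat.sub e d))) md)))
        false (Nat.ble dp e))
      (Nat.ble d e)) e0

/-- reads a list of indices from the stream `s`; accumulates the set in `a1`, the image in `a2` -/
noncomputable def lin (d dp md F px f : ℕ) :
    ℕ → ℕ → ℕ → (ℕ → ℕ → ℕ → Bool) → Bool :=
  Nat.rec (motive := fun _ => ℕ → ℕ → ℕ → (ℕ → ℕ → ℕ → Bool) → Bool) (fun _ _ _ _ => false)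
    (fun _ ih s a1 a2 k =>
      Nat.rec (motive := fun _ => Bool) (k (Nat.shiftRight s 12) a1 a2)
        (fun b _ => row d dp md F (Nat.land (Nat.shiftRight px (Nat.mul 12 b)) 4095) fun r =>
          ih (Nat.shiftRight s 12) (Nat.xor a1 (Nat.shiftLeft 1 b)) (Nat.xor a2 r) k)
        (Nat.land s 4095)) f

/-- the block after multiplication by the letter `x` -/
noncomputable def nxt (B x : ℕ) (k : ℕ → Bool) : Bool :=
  ifb (Nat.beq x 3) (k B)
    (ifb (Nat.ble x 2)
      (ifb (Nat.beq (Nat.land (Nat.shiftRight B (Nat.mul 2 x)) 3) 3) false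
        (fr (Nat.add B (Nat.shiftLeft 1 (Nat.mul 2 x))) k))
      false)

/-- multiplies the vector `n` of block `B` by the letter `x` -/
noncomputable def mul1 (tb : ℕ → Blk) (c B x n s : ℕ) (k : ℕ → ℕ → Bool) : Bool :=
  ifb (Nat.beq n 0) (k 0 s)
    (nxt B x fun T => ifb (Nat.ble T c)
      (Blk.rec (motive := fun _ => Bool) (fun d dp _ _ _ F p0 p1 p2 p3 =>
        fr (Nat.sub (Nat.shiftLeft 1 d) 1) fun md =>
        lin d dp md F (sel p0 p1 p2 p3 x) 4095 s 0 0 fun s' a1 a2 =>
          ifb (Nat.beq a1 (Nat.land n (Nat.sub (Nat.shiftLeft 1 (tb B).d) 1)))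
            (fr s' fun s'' => fr a2 fun n' => k n' s'') false) (tb T)) false)

/-- states: trees over the tags -/
inductive St where
  | v : ℕ → St
  | b : ℕ → St → St → St

/-- every entry times `x` -/
noncomputable def mapX (tb : ℕ → Blk) (c : ℕ) (x : ℕ) (t : St) :
    ℕ → ℕ → (St → ℕ → Bool) → Bool :=
  St.rec (motive := fun _ => ℕ → ℕ → (St → ℕ → Bool) → Bool)
    (fun n B s k => mul1 tb c B x n s fun n' s' => k (St.v n') s')
    (fun w _ _ f g B s k => f B s fun l' s' => g (Nat.add B w) s' fun r' s'' => k (St.b w l' r') s'')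
    t

/-- every entry times `1 + U` -/
noncomputable def mapH (tb : ℕ → Blk) (c : ℕ) (t : St) :
    ℕ → ℕ → (St → ℕ → Bool) → Bool :=
  St.rec (motive := fun _ => ℕ → ℕ → (St → ℕ → Bool) → Bool)
    (fun n B s k => mul1 tb c B 3 n s fun n' s' => fr (Nat.xor n n') fun n'' => k (St.v n'') s')
    (fun w _ _ f g B s k => f B s fun l' s' => g (Nat.add B w) s' fun r' s'' => k (St.b w l' r') s'')
    t

/-- `r + l x`, entry by entry -/
noncomputable def zipX (tb : ℕ → Blk) (c : ℕ) (x : ℕ) (l : St) :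
    St → ℕ → ℕ → (St → ℕ → Bool) → Bool :=
  St.rec (motive := fun _ => St → ℕ → ℕ → (St → ℕ → Bool) → Bool)
    (fun m r B s k => St.rec (motive := fun _ => Bool)
      (fun n => mul1 tb c B x m s fun m' s' => fr (Nat.xor n m') fun n' => k (St.v n') s')
      (fun _ _ _ _ _ => false) r)
    (fun w _ _ f g r B s k => St.rec (motive := fun _ => Bool) (fun _ => false)
      (fun w' r1 r2 _ _ => ifb (Nat.beq w w')
        (f r1 B s fun l' s' => g r2 (Nat.add B w) s' fun r' s'' => k (St.b w l' r') s'') false) r)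
    l

/-- second occurrence of the tag of level `i` -/
noncomputable def pass2 (tb : ℕ → Blk) (c : ℕ) (x i : ℕ) :
    St → ℕ → ℕ → (St → ℕ → Bool) → Bool :=
  Nat.rec (motive := fun _ => St → ℕ → ℕ → (St → ℕ → Bool) → Bool)
    (fun t B s k => St.rec (motive := fun _ => Bool) (fun _ => false)
      (fun w l r _ _ => zipX tb c x l r B s fun r' s' => k (St.b w l r') s') t)
    (fun _ ih t B s k => St.rec (motive := fun _ => Bool) (fun _ => false)
      (fun w l r _ _ => ih l B s fun l' s' => ih r (Nat.add B w) s' fun r' s'' =>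
        k (St.b w l' r') s'') t) i

/-- last occurrence of the tag of level `i` -/
noncomputable def pass3 (tb : ℕ → Blk) (c : ℕ) (x i : ℕ) :
    St → ℕ → ℕ → (St → ℕ → Bool) → Bool :=
  Nat.rec (motive := fun _ => St → ℕ → ℕ → (St → ℕ → Bool) → Bool)
    (fun t B s k => St.rec (motive := fun _ => Bool) (fun _ => false)
      (fun _ l r _ _ => zipX tb c x l r B s k) t)
    (fun _ ih t B s k => St.rec (motive := fun _ => Bool) (fun _ => false)
      (fun w l r _ _ => ih l B s fun l' s' => ih r (Nat.add B w) s' fun r' s'' =>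
        k (St.b w l' r') s'') t) i

/-- increment of the block code -/
noncomputable def inc (x : ℕ) : ℕ := sel 1 4 16 0 x

/-- first pass: reads the hats, keeps them in a list -/
noncomputable def p1 (tb : ℕ → Blk) (c f : ℕ) :
    List ℕ → St → ℕ → ℕ → (List ℕ → St → ℕ → Bool) → Bool :=
  Nat.rec (motive := fun _ => List ℕ → St → ℕ → ℕ → (List ℕ → St → ℕ → Bool) → Bool)
    (fun _ _ _ _ _ => false)
    (fun _ ih hh t B s k =>
      fr (Nat.land s 4095) fun g => fr (Nat.shiftRight s 12) fun s1 =>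
      Nat.rec (motive := fun _ => Bool) (k hh t s1)
        (fun x _ => ifb (Nat.beq x 3)
          (mapH tb c t B s1 fun t' s' => ih (List.cons x hh) t' B s' k)
          (ifb (Nat.ble x 2) (mapX tb c x t B s1 fun t' s' =>
            ih (List.cons x hh) (St.b (inc x) t t') B s' k) false)) g) f

/-- second pass -/
noncomputable def p2 (tb : ℕ → Blk) (c : ℕ) (hh : List ℕ) :
    ℕ → St → ℕ → ℕ → (St → ℕ → Bool) → Bool :=
  List.rec (motive := fun _ => ℕ → St → ℕ → ℕ → (St → ℕ → Bool) → Bool)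
    (fun _ t _ s k => k t s)
    (fun x _ ih i t B s k => ifb (Nat.beq x 3)
      (mapH tb c t B s fun t' s' => ih i t' B s' k)
      (pass2 tb c x i t B s fun t' s' => ih (Nat.succ i) t' B s' k)) hh

/-- third pass -/
noncomputable def p3 (tb : ℕ → Blk) (c : ℕ) (hh : List ℕ) :
    ℕ → St → ℕ → ℕ → (St → ℕ → ℕ → Bool) → Bool :=
  List.rec (motive := fun _ => ℕ → St → ℕ → ℕ → (St → ℕ → ℕ → Bool) → Bool)
    (fun _ t B s k => k t B s)
    (fun x _ ih i t B s k => ifb (Nat.beq x 3)
      (ih i t B s fun t' B' s' => mapH tb c t' B' s' fun t'' s'' => k t'' B' s'')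
      (ih (Nat.succ i) t B s fun t' B' s' => pass3 tb c x i t' B' s' fun t'' s'' =>
        fr (Nat.add B' (inc x)) fun B'' => k t'' B'' s'')) hh

/-- value of an instance: header `al, v, A, B`, then the hats -/
noncomputable def inst (tb : ℕ → Blk) (c s : ℕ) (k : ℕ → ℕ → Bool) : Bool :=
  fr (Nat.land s 4095) fun al => fr (Nat.land (Nat.shiftRight s 12) 4095) fun v =>
  fr (Nat.land (Nat.shiftRight s 24) 4095) fun xa => fr (Nat.land (Nat.shiftRight s 36) 4095) fun xb =>
  fr (Nat.shiftRight s 48) fun s0 =>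
  ifb (Nat.ble xa 3) (ifb (Nat.ble xb 3)
  (mapX tb c xa (St.v (Nat.shiftLeft 1 v)) al s0 fun t1 s1 => fr (Nat.add al (inc xa)) fun b1 =>
   p1 tb c 4095 List.nil t1 b1 s1 fun hh t2 s2 =>
   mapX tb c xb t2 b1 s2 fun t3 s3 => fr (Nat.add b1 (inc xb)) fun b2 =>
   p2 tb c hh 0 t3 b2 s3 fun t4 s4 =>
   mapX tb c xa t4 b2 s4 fun t5 s5 => fr (Nat.add b2 (inc xa)) fun b3 =>
   p3 tb c hh 0 t5 b3 s5 fun t6 b4 s6 =>
   mapX tb c xb t6 b4 s6 fun t7 s7 =>
   ifb (Nat.beq (Nat.add b4 (inc xb)) c)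
    (St.rec (motive := fun _ => Bool) (fun n => k n s7) (fun _ _ _ _ _ => false) t7) false) false) false

/-- adds stored vectors -/
noncomputable def addG (w mw G f : ℕ) : ℕ → ℕ → (ℕ → ℕ → Bool) → Bool :=
  Nat.rec (motive := fun _ => ℕ → ℕ → (ℕ → ℕ → Bool) → Bool) (fun _ _ _ => false)
    (fun _ ih s E k => Nat.rec (motive := fun _ => Bool) (k (Nat.shiftRight s 12) E)
      (fun j _ => ih (Nat.shiftRight s 12)
        (Nat.xor E (Nat.land (Nat.shiftRight G (Nat.mul w j)) mw)) k) (Nat.land s 4095)) f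

/-- adds stored vectors, then stores the result or settles a pair -/
noncomputable def act (w mw E s S G gs : ℕ) (k : ℕ → ℕ → ℕ → ℕ → Bool) : Bool :=
  addG w mw G 4095 s E fun s1 E1 => fr E1 fun E2 => fr s1 fun s2 =>
    Nat.rec (motive := fun _ => Bool)
      (ifb (Nat.beq (Nat.shiftRight E2 w) 0)
        (fr (Nat.shiftRight s2 12) fun s3 => fr (Nat.xor G (Nat.shiftLeft E2 gs)) fun G' =>
          fr (Nat.add gs w) fun gs' => k s3 S G' gs') false)
      (fun e _ => ifb (Nat.beq (Nat.land E2 S) (Nat.shiftLeft 1 e))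
        (fr (Nat.shiftRight s2 12) fun s3 => fr (Nat.xor S (Nat.shiftLeft 1 e)) fun S' =>
          k s3 S' G gs) false) (Nat.land s2 4095)

/-- the commands of one chunk -/
noncomputable def cmds (tb : ℕ → Blk) (c w mw f : ℕ) :
    ℕ → ℕ → ℕ → ℕ → (ℕ → ℕ → ℕ → Bool) → Bool :=
  Nat.rec (motive := fun _ => ℕ → ℕ → ℕ → ℕ → (ℕ → ℕ → ℕ → Bool) → Bool)
    (fun _ _ _ _ _ => false)
    (fun _ ih s S G gs k => fr (Nat.shiftRight s 12) fun s1 =>
      Nat.rec (motive := fun _ => Bool) (k S G gs)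
        (fun q _ => ifb (Nat.beq q 0)
          (inst tb c s1 fun E s2 => act w mw E s2 S G gs fun s3 S' G' gs' => ih s3 S' G' gs' k)
          (act w mw 0 s1 S G gs fun s3 S' G' gs' => ih s3 S' G' gs' k)) (Nat.land s 4095)) f

/-- all chunks -/
noncomputable def chunks (tb : ℕ → Blk) (c w mw m : ℕ) (l : List ℕ) :
    ℕ → ℕ → ℕ → Bool :=
  List.rec (motive := fun _ => ℕ → ℕ → ℕ → Bool) (fun S _ _ => Nat.beq S m)
    (fun s _ ih S G gs => cmds tb c w mw 4095 s S G gs ih) l

/-- the check of the nontrivial pairs of block `c` -/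
noncomputable def ckS (tb : ℕ → Blk) (c : ℕ) (l : List ℕ) : Bool :=
  fr (tb c).dp fun w => fr (Nat.sub (Nat.shiftLeft 1 w) 1) fun mw =>
  fr (Nat.sub (Nat.shiftLeft 1 (tb c).d) 1) fun m => chunks tb c w mw m l mw 0 0

/-- number of letters 3 -/
noncomputable def uc (f : ℕ) : ℕ → ℕ :=
  Nat.rec (motive := fun _ => ℕ → ℕ) (fun _ => 0)
    (fun _ ih w => Nat.add (ih (Nat.shiftRight w 2))
      (Bool.rec (motive := fun _ => ℕ) 0 1 (Nat.beq (Nat.land w 3) 3))) f

/-- code of the word `i` -/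
noncomputable def wdi (b : Blk) (i : ℕ) : ℕ :=
  Nat.land (Nat.shiftRight b.wd (Nat.mul 32 i)) 4294967295

/-- one pair -/
noncomputable def ckp (bc bp : Blk) (x px b : ℕ) : Bool :=
  Nat.rec (motive := fun _ => Bool)
    (fr (wdi bp b) fun w => ifb (ifb (Nat.beq (Nat.land w 3) x) (Nat.ble 4 w) false) true
      (ifb (Nat.beq x 3) (Nat.ble 3 (uc 16 w)) false))
    (fun e _ => ifb (Nat.ble bc.d e)
      (ifb (Nat.ble bc.dp e) true
        (Nat.beq (Nat.land (Nat.shiftRight bc.pr (Nat.mul 16 (Nat.sub e bc.d))) 65535)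
          (Nat.add x (Nat.mul 4 b))))
      (Nat.beq (wdi bc e) (Nat.add x (Nat.mul 4 (wdi bp b)))))
    (Nat.land (Nat.shiftRight px (Nat.mul 12 b)) 4095)

/-- all pairs with letter `x`; `bp` is the preceding block -/
noncomputable def ckx (bc bp : Blk) (x px : ℕ) : Bool :=
  ifb (Nat.beq (Nat.shiftRight px (Nat.mul 12 bp.d)) 0)
    (Nat.rec (motive := fun _ => Bool) true (fun b ih => ifb (ckp bc bp x px b) ih false) bp.d)
    false

/-- the preceding block of `c` for the letter `x` -/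
noncomputable def hasPre (c x : ℕ) : Bool :=
  ifb (Nat.beq x 3) true (ifb (Nat.beq (Nat.land (Nat.shiftRight c (Nat.mul 2 x)) 3) 0) false true)

noncomputable def ckX (tb : ℕ → Blk) (c x : ℕ) : Bool :=
  ifb (hasPre c x) (ckx (tb c) (tb (Nat.sub c (inc x))) x
    (sel (tb c).p0 (tb c).p1 (tb c).p2 (tb c).p3 x)) true

/-- definition of the basis word `i` -/
noncomputable def ckd (tb : ℕ → Blk) (c i : ℕ) : Bool :=
  fr (Nat.land (Nat.shiftRight (tb c).df (Nat.mul 16 i)) 65535) fun z =>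
  fr (Nat.land z 3) fun y => fr (Nat.shiftRight z 2) fun j =>
  fr (Nat.sub c (inc y)) fun p =>
  ifb (hasPre c y) (ifb (Nat.ble (Nat.succ j) (tb p).d)
    (Nat.beq (wdi (tb c) i) (Nat.add y (Nat.mul 4 (wdi (tb p) j)))) false) false

noncomputable def ckD (tb : ℕ → Blk) (c : ℕ) : Bool :=
  Nat.rec (motive := fun _ => Bool) true
    (fun i ih => ifb (ifb (Nat.beq c 0) (ifb (Nat.beq i 0) (Nat.beq (wdi (tb c) i) 1) (ckd tb c i))
      (ckd tb c i)) ih false) (tb c).d

/-- the check of the tables of block `c` -/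
noncomputable def ckB (tb : ℕ → Blk) (c : ℕ) : Bool :=
  ifb (Nat.ble (tb c).d (tb c).dp) (ifb (Nat.ble (tb c).dp 4094)
    (ifb (ckD tb c) (ifb (ckX tb c 0) (ifb (ckX tb c 1) (ifb (ckX tb c 2) (ckX tb c 3)
      false) false) false) false) false) false

/-- value of a word -/
noncomputable def evw (tb : ℕ → Blk) (c : ℕ) (w : List ℕ) :
    ℕ → ℕ → ℕ → (ℕ → ℕ → Bool) → Bool :=
  List.rec (motive := fun _ => ℕ → ℕ → ℕ → (ℕ → ℕ → Bool) → Bool) (fun _ n s k => k n s)
    (fun x _ ih B n s k => mul1 tb c B x n s fun n' s' =>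
      fr (Nat.add B (inc x)) fun B' => ih B' n' s' k) w

/-- value of a sum of words, one chunk for each word -/
noncomputable def ckT (tb : ℕ → Blk) (c : ℕ) (ws : List (List ℕ)) : List ℕ → ℕ → Bool :=
  List.rec (motive := fun _ => List ℕ → ℕ → Bool)
    (fun _ a => Nat.beq (Nat.land a (Nat.sub (Nat.shiftLeft 1 (tb c).d) 1)) 0)
    (fun w _ ih ss a => List.rec (motive := fun _ => Bool) false
      (fun s ss' _ => evw tb c w 0 1 s fun n _ => fr (Nat.xor a n) fun a' => ih ss' a') ss) ws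

end Pool.Agent.L3E.UX
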