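import Pool.Agent.L3E.UX.Core
import Pool.Agent.L3E.UX.Alg

/-!
# L3E, part (II) of (J1): meaning of the tables (helper68)
-/

set_option autoImplicit false

namespace Pool.Agent.L3E.UX

theorem fr_eq (n : ℕ) (f : ℕ → Bool) : fr n f = f n := by cases n <;> rfl

theorem ifb_and {b t : Bool} : ifb b t false = true ↔ b = true ∧ t = true := by
  cases b <;> cases t <;> simp [ifb]

theorem ifb_or {b e : Bool} : ifb b true e = true ↔ b = true ∨ e = true := by
  cases b <;> cases e <;> simp [ifb]

/-! ### sums over the bits -/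

section bits

variable {R : Type} [Ring R]

/-- sum of `f` over the bits of `n` -/
def Fn (f : ℕ → R) (n : ℕ) : R := ∑ i ∈ Finset.range 4096, if n.testBit i then f i else 0

theorem Fn_xor (h2 : (2 : R) = 0) (f : ℕ → R) (x y : ℕ) :
    Fn f (x ^^^ y) = Fn f x + Fn f y := by
  unfold Fn
  rw [← Finset.sum_add_distrib]
  refine Finset.sum_congr rfl fun i _ => ?_
  rw [Nat.testBit_xor]
  cases x.testBit i <;> cases y.testBit i <;> simp [ch2 h2]

theorem Fn_zero (f : ℕ → R) : Fn f 0 = 0 := by simp [Fn]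

theorem Fn_one (f : ℕ → R) (hf : ∀ i, 4096 ≤ i → f i = 0) (e : ℕ) : Fn f (1 <<< e) = f e := by
  unfold Fn
  have h1 : ∀ i, (1 <<< e).testBit i = decide (e = i) := by
    intro i
    rw [Nat.one_shiftLeft, Nat.testBit_two_pow]
  simp only [h1, decide_eq_true_eq]
  rw [Finset.sum_ite_eq (Finset.range 4096) e f]
  split_ifs with h
  · rfl
  · exact (hf e (by simpa using h)).symm

theorem tb_mask (n w i : ℕ) : (n &&& (1 <<< w - 1)).testBit i = (n.testBit i && decide (i < w)) := by
  rw [Nat.testBit_and, Nat.one_shiftLeft, Nat.testBit_two_pow_sub_one]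

theorem Fn_congr (f g : ℕ → R) (n : ℕ) (h : ∀ i, n.testBit i = true → f i = g i) :
    Fn f n = Fn g n := by
  unfold Fn
  refine Finset.sum_congr rfl fun i _ => ?_
  by_cases hi : n.testBit i = true
  · simp [hi, h i hi]
  · simp [hi]

theorem Fn_mem (f : ℕ → R) (n : ℕ) (N : AddSubgroup R) (h : ∀ i, n.testBit i = true → f i ∈ N) :
    Fn f n ∈ N := by
  unfold Fn
  refine N.sum_mem fun i _ => ?_
  split_ifs with hi
  · exact h i hi
  · exact N.zero_mem

theorem Fn_mul (f : ℕ → R) (n : ℕ) (b : R) : Fn f n * b = Fn (fun i => f i * b) n := by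
  unfold Fn
  rw [Finset.sum_mul]
  refine Finset.sum_congr rfl fun i _ => ?_
  split_ifs <;> simp

theorem Fn_sub (f g : ℕ → R) (n : ℕ) : Fn f n - Fn g n = Fn (fun i => f i - g i) n := by
  unfold Fn
  rw [← Finset.sum_sub_distrib]
  refine Finset.sum_congr rfl fun i _ => ?_
  split_ifs <;> simp

theorem Fn_mask (f g : ℕ → R) (n w : ℕ) (h : ∀ i, i < w → f i = g i) (h' : ∀ i, w ≤ i → g i = 0) :
    Fn f (n &&& (1 <<< w - 1)) = Fn g n := by
  unfold Fn
  refine Finset.sum_congr rfl fun i _ => ?_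
  rw [tb_mask]
  by_cases hi : i < w
  · simp [hi, h i hi]
  · simp [hi, h' i (by omega)]

end bits

/-! ### words -/

/-- the word of a code -/
def wl (n : ℕ) : List ℕ := if n < 4 then [] else wl (n / 4) ++ [n % 4]
termination_by n
decreasing_by omega

theorem wl_small {n : ℕ} (h : n < 4) : wl n = [] := by rw [wl]; simp [h]

theorem wl_snoc {m x : ℕ} (hm : 1 ≤ m) (hx : x ≤ 3) : wl (x + 4 * m) = wl m ++ [x] := by
  rw [wl]
  have h1 : ¬ (x + 4 * m < 4) := by omega
  have h2 : (x + 4 * m) / 4 = m := by omega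
  have h3 : (x + 4 * m) % 4 = x := by omega
  rw [if_neg h1, h2, h3]

/-- content of a block -/
def dc (c : ℕ) : Fin 3 → ℕ := fun i => c / 4 ^ (i : ℕ) % 4

def en (m : Fin 3 → ℕ) : ℕ := m 0 + 4 * m 1 + 16 * m 2

theorem inc0 : inc 0 = 1 := rfl
theorem inc1 : inc 1 = 4 := rfl
theorem inc2 : inc 2 = 16 := rfl
theorem inc3 : inc 3 = 0 := rfl

theorem fin3 {P : Fin 3 → Prop} (h0 : P 0) (h1 : P 1) (h2 : P 2) : ∀ i, P i := by
  intro i
  fin_cases i
  · exact h0
  · exact h1
  · exact h2

theorem dc_en {m : Fin 3 → ℕ} (h : ∀ i, m i ≤ 3) : dc (en m) = m := by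
  have h0 := h 0
  have h1 := h 1
  have h2 := h 2
  funext i
  revert i
  refine fin3 ?_ ?_ ?_ <;> simp [dc, en] <;> omega

theorem dc_le (c : ℕ) (i : Fin 3) : dc c i ≤ 3 := by
  have : dc c i < 4 := Nat.mod_lt _ (by norm_num)
  omega

theorem en_dc {c : ℕ} (h : c < 64) : en (dc c) = c := by
  simp [dc, en]; omega

theorem en_add {m : Fin 3 → ℕ} {x : ℕ} (hx : x ≤ 3) : en (m + ec x) = en m + inc x := by
  have : x = 0 ∨ x = 1 ∨ x = 2 ∨ x = 3 := by omega
  rcases this with rfl | rfl | rfl | rfl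
  · simp [en, ec, inc0]; omega
  · simp [en, ec, inc1]; omega
  · simp [en, ec, inc2]; omega
  · simp [en, ec, inc3]

theorem land3 (n : ℕ) : Nat.land n 3 = n % 4 := by
  have : n &&& 3 = n % 2 ^ 2 := Nat.and_two_pow_sub_one_eq_mod n 2
  exact this

theorem shr2 (n k : ℕ) : Nat.shiftRight n (Nat.mul 2 k) = n / 4 ^ k := by
  have : n >>> (2 * k) = n / 2 ^ (2 * k) := Nat.shiftRight_eq_div_pow n (2 * k)
  rw [pow_mul] at this
  exact this

theorem hasPre_dc {c x : ℕ} (hx : x ≤ 3) (h : hasPre c x = true) :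
    dc c = dc (c - inc x) + ec x ∧ (x ≤ 2 → c - inc x < c) ∧ c - inc x + inc x = c := by
  have h' : x = 0 ∨ x = 1 ∨ x = 2 ∨ x = 3 := by omega
  unfold hasPre at h
  rw [shr2, land3] at h
  rcases h' with rfl | rfl | rfl | rfl
  · have h0 : c / 4 ^ 0 % 4 ≠ 0 := by
      intro e; rw [e] at h; simp [ifb] at h
    simp only [pow_zero, Nat.div_one] at h0
    rw [inc0]
    refine ⟨?_, fun _ => by omega, by omega⟩
    funext i; revert i
    refine fin3 ?_ ?_ ?_ <;> simp [dc, ec] <;> omega
  · have h0 : c / 4 ^ 1 % 4 ≠ 0 := by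
      intro e; rw [e] at h; simp [ifb] at h
    simp only [pow_one] at h0
    rw [inc1]
    refine ⟨?_, fun _ => by omega, by omega⟩
    funext i; revert i
    refine fin3 ?_ ?_ ?_ <;> simp [dc, ec] <;> omega
  · have h0 : c / 4 ^ 2 % 4 ≠ 0 := by
      intro e; rw [e] at h; simp [ifb] at h
    rw [inc2]
    norm_num at h0
    refine ⟨?_, fun _ => by omega, by omega⟩
    funext i; revert i
    refine fin3 ?_ ?_ ?_ <;> simp [dc, ec] <;> omega
  · rw [inc3, ec_three]
    exact ⟨by simp, fun hh => absurd hh (by norm_num), by simp⟩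

/-! ### tables -/

section tables

variable {R : Type} [Ring R] (a : ℕ → R) (t : ℕ → Blk)

/-- value of the basis word `i` of block `c` -/
noncomputable def val (c i : ℕ) : R := if i < (t c).d then wv a (wl (wdi (t c) i)) else 0

def prz (b : Blk) (i : ℕ) : ℕ := Nat.land (Nat.shiftRight b.pr (Nat.mul 16 (Nat.sub i b.d))) 65535

def rho (b : Blk) (i : ℕ) : ℕ :=
  Nat.land (Nat.shiftRight b.F (Nat.mul b.d (Nat.sub i b.d))) (1 <<< b.d - 1)

/-- value of bit `i` in block `c`: a basis word, or the defect of a nontrivial pair -/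
noncomputable def fB (c i : ℕ) : R :=
  if i < (t c).d then val a t c i else
  if i < (t c).dp then
    (if hasPre c (prz (t c) i % 4) = true then
      val a t (c - inc (prz (t c) i % 4)) (prz (t c) i / 4) * a (prz (t c) i % 4) -
        Fn (val a t c) (rho (t c) i) else 0)
  else 0

theorem ckD_mem {c : ℕ} (h : ckD t c = true) {i : ℕ} (hi : i < (t c).d) :
    (c = 0 ∧ i = 0 ∧ wdi (t c) i = 1) ∨ ckd t c i = true := by
  unfold ckD at h
  revert h hi
  generalize (t c).d = m
  induction m with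
  | zero => intro _ h; omega
  | succ m ih =>
    intro h hi
    dsimp only at h
    rw [ifb_and] at h
    rcases Nat.lt_succ_iff_lt_or_eq.1 hi with h3 | h3
    · exact ih h.2 h3
    · subst h3
      have h4 := h.1
      by_cases hc : c = 0
      · subst hc
        rw [show Nat.beq 0 0 = true from rfl] at h4
        by_cases hi0 : i = 0
        · subst hi0
          left
          refine ⟨rfl, rfl, ?_⟩
          exact Nat.eq_of_beq_eq_true h4
        · right
          have : Nat.beq i 0 = false := by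
            cases h5 : Nat.beq i 0
            · rfl
            · exact absurd (Nat.eq_of_beq_eq_true h5) hi0
          rw [this] at h4
          exact h4
      · right
        have : Nat.beq c 0 = false := by
          cases h5 : Nat.beq c 0
          · rfl
          · exact absurd (Nat.eq_of_beq_eq_true h5) hc
        rw [this] at h4
        exact h4

theorem ckd_mem {c i : ℕ} (h : ckd t c i = true) : ∃ y j, y ≤ 3 ∧ hasPre c y = true ∧
    j < (t (c - inc y)).d ∧ wdi (t c) i = y + 4 * wdi (t (c - inc y)) j := by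
  unfold ckd at h
  simp only [fr_eq, ifb_and] at h
  obtain ⟨h1, h2, h3⟩ := h
  refine ⟨_, _, ?_, h1, Nat.le_of_ble_eq_true h2, Nat.eq_of_beq_eq_true h3⟩
  rw [land3]; omega

/-- the basis words have the content of their block -/
theorem G1 (hD : ∀ c, c < 64 → ckD t c = true) (c : ℕ) (hc : c < 64) (i : ℕ)
    (hi : i < (t c).d) : 1 ≤ wdi (t c) i ∧ Lt (wl (wdi (t c) i)) ∧ cw (wl (wdi (t c) i)) = dc c ∧
      ∀ f, uc f (wdi (t c) i) ≤ (wl (wdi (t c) i)).count 3 := by
  induction c using Nat.strong_induction_on generalizing i with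
  | _ c ihc =>
  generalize hn : wdi (t c) i = n
  induction n using Nat.strong_induction_on generalizing i with
  | _ n ihn =>
  have uc1 : ∀ f, uc f 1 = 0 := by
    have uc0 : ∀ f, uc f 0 = 0 := by
      intro f
      induction f with
      | zero => rfl
      | succ f ih => exact ih
    intro f
    cases f with
    | zero => rfl
    | succ f => exact uc0 f
  rcases ckD_mem t (hD c hc) hi with ⟨rfl, rfl, h1⟩ | h
  · rw [h1] at hn
    subst hn
    rw [wl_small (by norm_num)]
    refine ⟨le_refl _, ?_, ?_, ?_⟩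
    · intro l hl; simp at hl
    · funext i; simp [cw, dc]
    · intro f; rw [uc1]; exact Nat.zero_le _
  · obtain ⟨y, j, hy, hp, hj, he⟩ := ckd_mem t h
    obtain ⟨hd, hlt, _⟩ := hasPre_dc hy hp
    rw [hn] at he
    have key : 1 ≤ wdi (t (c - inc y)) j ∧ Lt (wl (wdi (t (c - inc y)) j)) ∧
        cw (wl (wdi (t (c - inc y)) j)) = dc (c - inc y) ∧
        ∀ f, uc f (wdi (t (c - inc y)) j) ≤ (wl (wdi (t (c - inc y)) j)).count 3 := by
      by_cases hy2 : y ≤ 2
      · exact ihc _ (hlt hy2) (by have := hlt hy2; omega) j hj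
      · have hy3 : y = 3 := by omega
        subst hy3
        rw [inc3, Nat.sub_zero] at hj he ⊢
        exact ihn _ (by omega) j hj rfl
    obtain ⟨k1, k2, k3, k4⟩ := key
    rw [he, wl_snoc k1 hy]
    refine ⟨by omega, Lt_snoc k2 hy, ?_, ?_⟩
    · rw [cw_snoc, k3, ← hd]
    · intro f
      cases f with
      | zero => exact Nat.zero_le _
      | succ f =>
        have e1 : Nat.shiftRight (y + 4 * wdi (t (c - inc y)) j) 2 = wdi (t (c - inc y)) j := by
          have := shr2 (y + 4 * wdi (t (c - inc y)) j) 1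
          rw [show Nat.mul 2 1 = 2 from rfl] at this
          rw [this]; omega
        have e2 : Nat.land (y + 4 * wdi (t (c - inc y)) j) 3 = y := by
          rw [land3]; omega
        have e3 : uc (f + 1) (y + 4 * wdi (t (c - inc y)) j) =
            uc f (wdi (t (c - inc y)) j) +
              (Bool.rec (motive := fun _ => ℕ) 0 1 (Nat.beq y 3)) := by
          change Nat.add (uc f (Nat.shiftRight (y + 4 * wdi (t (c - inc y)) j) 2))
            (Bool.rec (motive := fun _ => ℕ) 0 1
              (Nat.beq (Nat.land (y + 4 * wdi (t (c - inc y)) j) 3) 3)) = _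
          rw [e1, e2]; rfl
        rw [e3, List.count_append]
        refine Nat.add_le_add (k4 f) ?_
        by_cases hy3 : y = 3
        · subst hy3; simp
        · have : Nat.beq y 3 = false := by
            cases h5 : Nat.beq y 3
            · rfl
            · exact absurd (Nat.eq_of_beq_eq_true h5) hy3
          rw [this]; exact Nat.zero_le _

theorem val_W (hD : ∀ c, c < 64 → ckD t c = true) (c : ℕ) (hc : c < 64) (i : ℕ) :
    val a t c i ∈ W a (dc c) := by
  unfold val
  split_ifs with h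
  · obtain ⟨_, h2, h3, _⟩ := G1 t hD c hc i h
    exact AddSubgroup.subset_closure ⟨_, h2, by rw [h3], rfl⟩
  · exact (W a _).zero_mem

theorem fB_big (c i : ℕ) (h : (t c).dp ≤ i) (hd : (t c).d ≤ (t c).dp) : fB a t c i = 0 := by
  unfold fB
  rw [if_neg (by omega), if_neg (by omega)]

theorem fB_W (hD : ∀ c, c < 64 → ckD t c = true) (c : ℕ) (hc : c < 64) (i : ℕ) :
    fB a t c i ∈ W a (dc c) := by
  unfold fB
  split_ifs with h1 h2 h3
  · exact val_W a t hD c hc i
  · have hx : prz (t c) i % 4 ≤ 3 := by omega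
    obtain ⟨hd, _, _⟩ := hasPre_dc hx h3
    refine (W a _).sub_mem ?_ (Fn_mem _ _ _ fun j _ => val_W a t hD c hc j)
    rw [hd]
    exact W_mul a _ hx (val_W a t hD _ (by omega) _)
  · exact (W a _).zero_mem
  · exact (W a _).zero_mem

theorem fB_small (c i : ℕ) (h : i < (t c).d) : fB a t c i = val a t c i := by
  unfold fB
  rw [if_pos h]

theorem ckx_mem {bc bp : Blk} {x px : ℕ} (h : ckx bc bp x px = true) :
    Nat.shiftRight px (Nat.mul 12 bp.d) = 0 ∧ ∀ b, b < bp.d → ckp bc bp x px b = true := by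
  unfold ckx at h
  rw [ifb_and] at h
  refine ⟨Nat.eq_of_beq_eq_true h.1, ?_⟩
  have h2 := h.2
  revert h2
  generalize bp.d = m
  induction m with
  | zero => intro _ b hb; omega
  | succ m ih =>
    intro h2 b hb
    dsimp only at h2
    rw [ifb_and] at h2
    rcases Nat.lt_succ_iff_lt_or_eq.1 hb with h3 | h3
    · exact ih h2.2 b h3
    · subst h3; exact h2.1

theorem ptr_zero {px m b : ℕ} (h : Nat.shiftRight px (Nat.mul 12 m) = 0) (hb : m ≤ b) :
    Nat.land (Nat.shiftRight px (Nat.mul 12 b)) 4095 = 0 := by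
  have h1 : px >>> (12 * m) = 0 := h
  have h3 : px >>> (12 * b) = 0 := by
    obtain ⟨k, rfl⟩ := Nat.exists_eq_add_of_le hb
    rw [mul_add, Nat.shiftRight_add, h1, Nat.zero_shiftRight]
  change px >>> (12 * b) &&& 4095 = 0
  rw [h3, Nat.zero_and]

theorem beq_false_of {m n : ℕ} (h : m ≠ n) : Nat.beq m n = false := by
  cases h5 : Nat.beq m n
  · rfl
  · exact absurd (Nat.eq_of_beq_eq_true h5) h

theorem ble_false {m n : ℕ} (h : Nat.ble m n = false) : n < m := by
  by_contra hc
  rw [Nat.ble_eq_true_of_le (by omega)] at h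
  exact absurd h (by simp)

theorem zero_pair (hsq : ∀ x, a x * a x = 0) (hD : ∀ c, c < 64 → ckD t c = true)
    {c x b : ℕ} (hc : c < 64) (hx : x ≤ 3)
    (hp : hasPre c x = true) (hb : b < (t (c - inc x)).d)
    (h : (Nat.land (wdi (t (c - inc x)) b) 3 = x ∧ 4 ≤ wdi (t (c - inc x)) b) ∨
      (x = 3 ∧ 3 ≤ uc 16 (wdi (t (c - inc x)) b))) :
    val a t (c - inc x) b * a x ∈ K a (dc c) := by
  obtain ⟨hd, _, _⟩ := hasPre_dc hx hp
  obtain ⟨_, g2, g3, g4⟩ := G1 t hD (c - inc x) (by omega) b hb
  unfold val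
  rw [if_pos hb]
  rcases h with ⟨h1, h3⟩ | ⟨rfl, h3⟩
  · rw [land3] at h1
    have e : wl (wdi (t (c - inc x)) b) = wl (wdi (t (c - inc x)) b / 4) ++ [x] := by
      rw [wl, if_neg (by omega), h1]
    rw [e, wv_snoc, mul_assoc, hsq, mul_zero]
    exact (K a _).zero_mem
  · rw [← wv_snoc]
    refine AddSubgroup.subset_closure ⟨_, Lt_snoc g2 hx, ?_, Or.inr ?_, rfl⟩
    · rw [cw_snoc, g3, ← hd]
    · rw [List.count_append]
      have := g4 16
      simp
      omega

theorem row_sound (hsq : ∀ x, a x * a x = 0) (h2 : (2 : R) = 0)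
    (hD : ∀ c, c < 64 → ckD t c = true)
    {c x px : ℕ} (hc : c < 64) (hx : x ≤ 3) (hdd : (t c).d ≤ (t c).dp) (hdp : (t c).dp ≤ 4094)
    (hp : hasPre c x = true) (hck : ckx (t c) (t (c - inc x)) x px = true)
    (b : ℕ) (k : ℕ → Bool)
    (h : row (t c).d (t c).dp (1 <<< (t c).d - 1) (t c).F
      (Nat.land (Nat.shiftRight px (Nat.mul 12 b)) 4095) k = true) :
    ∃ r, k r = true ∧ Fn (fB a t c) r - val a t (c - inc x) b * a x ∈ K a (dc c) := by
  obtain ⟨hz, hb⟩ := ckx_mem hck
  have hbig : ∀ i, 4096 ≤ i → fB a t c i = 0 := fun i hi => fB_big a t c i (by omega) hdd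
  by_cases hbd : b < (t (c - inc x)).d
  · have hb1 := hb b hbd
    unfold ckp at hb1
    revert h hb1
    generalize Nat.land (Nat.shiftRight px (Nat.mul 12 b)) 4095 = e0
    intro h hb1
    cases e0 with
    | zero =>
      refine ⟨0, h, ?_⟩
      rw [fr_eq] at hb1
      change ifb (ifb (Nat.beq (Nat.land (wdi (t (c - inc x)) b) 3) x)
        (Nat.ble 4 (wdi (t (c - inc x)) b)) false) true
        (ifb (Nat.beq x 3) (Nat.ble 3 (uc 16 (wdi (t (c - inc x)) b))) false) = true at hb1
      rw [ifb_or, ifb_and, ifb_and] at hb1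
      rw [Fn_zero, zero_sub]
      refine (K a _).neg_mem (zero_pair a t hsq hD hc hx hp hbd ?_)
      rcases hb1 with ⟨h1, h3⟩ | ⟨h1, h3⟩
      · exact Or.inl ⟨Nat.eq_of_beq_eq_true h1, Nat.le_of_ble_eq_true h3⟩
      · exact Or.inr ⟨Nat.eq_of_beq_eq_true h1, Nat.le_of_ble_eq_true h3⟩
    | succ e =>
      unfold row at h
      dsimp only at h hb1
      cases h3 : Nat.ble (t c).d e with
      | false =>
        rw [h3] at h hb1
        refine ⟨_, h, ?_⟩
        have h4 := ble_false h3
        have h5 : wdi (t c) e = x + 4 * wdi (t (c - inc x)) b := Nat.eq_of_beq_eq_true hb1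
        rw [show Nat.shiftLeft 1 e = 1 <<< e from rfl, Fn_one _ hbig, fB_small a t c e h4]
        unfold val
        rw [if_pos h4, if_pos hbd, h5]
        obtain ⟨g1, _⟩ := G1 t hD (c - inc x) (by omega) b hbd
        rw [wl_snoc g1 hx, wv_snoc, sub_self]
        exact (K a _).zero_mem
      | true =>
        rw [h3] at h hb1
        dsimp only at h hb1
        cases h4 : Nat.ble (t c).dp e with
        | true => rw [h4] at h; exact absurd h (by simp)
        | false =>
          rw [h4] at h hb1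
          refine ⟨_, h, ?_⟩
          have h5 := ble_false h4
          have h6 := Nat.le_of_ble_eq_true h3
          have h7 : prz (t c) e = x + 4 * b := Nat.eq_of_beq_eq_true hb1
          change Fn (fB a t c) ((1 <<< e) ^^^ (rho (t c) e)) - _ ∈ _
          rw [Fn_xor h2, Fn_one _ hbig]
          have h8 : Fn (fB a t c) (rho (t c) e) = Fn (val a t c) (rho (t c) e) := by
            refine Fn_congr _ _ _ fun i hi => ?_
            unfold rho at hi
            rw [show ∀ u v, Nat.land u v = u &&& v from fun _ _ => rfl, tb_mask] at hi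
            simp only [Bool.and_eq_true, decide_eq_true_eq] at hi
            exact fB_small a t c i hi.2
          rw [h8]
          unfold fB
          rw [if_neg (by omega), if_pos h5, h7]
          have h9 : (x + 4 * b) % 4 = x := by omega
          have h10 : (x + 4 * b) / 4 = b := by omega
          rw [h9, h10, if_pos hp]
          have : val a t (c - inc x) b * a x - Fn (val a t c) (rho (t c) e) +
            Fn (val a t c) (rho (t c) e) - val a t (c - inc x) b * a x = 0 := by abel
          rw [this]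
          exact (K a _).zero_mem
  · rw [ptr_zero hz (by omega)] at h
    refine ⟨0, h, ?_⟩
    unfold val
    rw [if_neg hbd, zero_mul, Fn_zero, sub_zero]
    exact (K a _).zero_mem

end tables

theorem lin_sound {R : Type} [Ring R] (N : AddSubgroup R) (φ ψ : ℕ → R)
    (hφ : ∀ x y, φ (x ^^^ y) = φ x + φ y) (hψ : ∀ x y, ψ (x ^^^ y) = ψ x + ψ y)
    (d dp md F px : ℕ)
    (hrow : ∀ b k, row d dp md F (Nat.land (Nat.shiftRight px (Nat.mul 12 b)) 4095) k = true →
      ∃ r, k r = true ∧ ψ r - φ (1 <<< b) ∈ N) (f : ℕ) :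
    ∀ s a1 a2 k, lin d dp md F px f s a1 a2 k = true → ψ a2 - φ a1 ∈ N →
      ∃ s' a1' a2', k s' a1' a2' = true ∧ ψ a2' - φ a1' ∈ N := by
  induction f with
  | zero => intro s a1 a2 k h _; exact absurd h (by simp [lin])
  | succ f ih =>
    intro s a1 a2 k h h0
    unfold lin at h
    dsimp only at h
    revert h
    cases Nat.land s 4095 with
    | zero => intro h; exact ⟨_, _, _, h, h0⟩
    | succ b =>
      intro h
      obtain ⟨r, h1, h3⟩ := hrow b _ h
      refine ih _ _ _ k h1 ?_
      rw [show ∀ u v, Nat.xor u v = u ^^^ v from fun _ _ => rfl,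
        show ∀ u v, Nat.xor u v = u ^^^ v from fun _ _ => rfl,
        show ∀ u v, Nat.shiftLeft u v = u <<< v from fun _ _ => rfl, hφ, hψ]
      have e : ψ a2 + ψ r - (φ a1 + φ (1 <<< b)) = (ψ a2 - φ a1) + (ψ r - φ (1 <<< b)) := by abel
      rw [e]
      exact N.add_mem h0 h3

end Pool.Agent.L3E.UX
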