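import Pool.Agent.L3E.UX.Sem1

/-!
# L3E, part (II) of (J1): meaning of the multiplication and of the trees (helper68)
-/

set_option autoImplicit false

namespace Pool.Agent.L3E.UX

theorem ckB_parts {t : ℕ → Blk} {c : ℕ} (h : ckB t c = true) :
    (t c).d ≤ (t c).dp ∧ (t c).dp ≤ 4094 ∧ ckD t c = true ∧
      ∀ x, x ≤ 3 → ckX t c x = true := by
  unfold ckB at h
  simp only [ifb_and] at h
  obtain ⟨h1, h2, h3, h4, h5, h6, h7⟩ := h
  refine ⟨Nat.le_of_ble_eq_true h1, Nat.le_of_ble_eq_true h2, h3, ?_⟩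
  intro x hx
  have : x = 0 ∨ x = 1 ∨ x = 2 ∨ x = 3 := by omega
  rcases this with rfl | rfl | rfl | rfl
  · exact h4
  · exact h5
  · exact h6
  · exact h7

theorem ckX_use {t : ℕ → Blk} {c x : ℕ} (h : ckX t c x = true) (hp : hasPre c x = true) :
    ckx (t c) (t (c - inc x)) x (sel (t c).p0 (t c).p1 (t c).p2 (t c).p3 x) = true := by
  unfold ckX at h
  rw [hp] at h
  exact h

section ctx

variable {R : Type} [Ring R] (a : ℕ → R) (t : ℕ → Blk) (c : ℕ)

structure Ctx : Prop where
  h2 : (2 : R) = 0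
  hsq : ∀ x, a x * a x = 0
  hB : ∀ c, c < 64 → ckB t c = true
  hc : c < 64
  ok : ∀ B, B < c → ∀ i, (t B).d ≤ i → i < (t B).dp → fB a t B i ∈ K a (dc B)

def DU : AddSubgroup R :=
  AddSubgroup.closure {y | ∃ i, (t c).d ≤ i ∧ i < (t c).dp ∧ y = fB a t c i * a 3}

open Classical in
noncomputable def NN (m : Fin 3 → ℕ) : AddSubgroup R :=
  if m = dc c then K a m ⊔ DU a t c else if m ≤ dc c then K a m else ⊤

theorem K_le_NN (m : Fin 3 → ℕ) : K a m ≤ NN a t c m := by
  unfold NN
  split_ifs
  · exact le_sup_left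
  · exact le_refl _
  · exact le_top

theorem ec_pos {x : ℕ} (hx : x ≤ 2) : ec x ⟨x, by omega⟩ = 1 := by simp [ec]

theorem NN_mul (hsq : ∀ x, a x * a x = 0) {m : Fin 3 → ℕ} {x : ℕ} (hx : x ≤ 3) {r : R}
    (hr : r ∈ NN a t c m) : r * a x ∈ NN a t c (m + ec x) := by
  have hle : m ≤ m + ec x := le_self_add
  by_cases h1 : m + ec x ≤ dc c
  · by_cases h2 : m = dc c
    · have h3 : x = 3 := by
        by_contra hne
        have := h1 ⟨x, by omega⟩
        rw [h2] at this
        simp [ec] at this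
      subst h3
      rw [ec_three, add_zero]
      unfold NN at hr
      rw [if_pos h2] at hr
      refine K_le_NN a t c m ?_
      obtain ⟨u, hu, v, hv, rfl⟩ := AddSubgroup.mem_sup.1 hr
      rw [add_mul]
      have k1 := K_mul a m (le_refl 3) hu
      rw [ec_three, add_zero] at k1
      refine (K a m).add_mem k1 ?_
      refine mul_closure (a 3) ?_ v hv
      rintro _ ⟨i, _, _, rfl⟩
      rw [mul_assoc, hsq, mul_zero]
      exact (K a m).zero_mem
    · have h4 : m ≤ dc c := hle.trans h1
      unfold NN at hr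
      rw [if_neg h2, if_pos h4] at hr
      exact K_le_NN a t c _ (K_mul a m hx hr)
  · have h5 : NN a t c (m + ec x) = ⊤ := by
      unfold NN
      rw [if_neg (fun h => h1 (le_of_eq h)), if_neg h1]
    rw [h5]
    exact AddSubgroup.mem_top _

/-- the meaning of a leaf -/
def LOK (V : R) (m : Fin 3 → ℕ) (B n : ℕ) : Prop :=
  B = en m ∧ (n ≠ 0 → ∀ i, m i ≤ 3) ∧ Fn (fB a t B) n - V ∈ NN a t c m

theorem nxt_sound {B x : ℕ} {k : ℕ → Bool} {m : Fin 3 → ℕ} (hx : x ≤ 3) (hB : B = en m)
    (hm : ∀ i, m i ≤ 3) (h : nxt B x k = true) :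
    k (B + inc x) = true ∧ (∀ i, (m + ec x) i ≤ 3) ∧ hasPre (B + inc x) x = true := by
  have hx' : x = 3 ∨ x ≤ 2 := by omega
  unfold nxt at h
  rcases hx' with rfl | hx'
  · rw [show Nat.beq 3 3 = true from rfl] at h
    refine ⟨h, ?_, rfl⟩
    rw [ec_three, add_zero]; exact hm
  · rw [beq_false_of (show x ≠ 3 by omega), Nat.ble_eq_true_of_le hx'] at h
    change ifb (Nat.beq (Nat.land (Nat.shiftRight B (Nat.mul 2 x)) 3) 3) false
        (fr (Nat.add B (Nat.shiftLeft 1 (Nat.mul 2 x))) k) = true at h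
    have hd : Nat.land (Nat.shiftRight B (Nat.mul 2 x)) 3 = m ⟨x, by omega⟩ := by
      rw [land3, shr2]
      have := congrFun (dc_en hm) ⟨x, by omega⟩
      rw [← hB] at this
      exact this
    rw [hd] at h
    by_cases h3 : m ⟨x, by omega⟩ = 3
    · rw [h3] at h; exact absurd h (by simp [ifb])
    · rw [beq_false_of h3] at h
      change fr (Nat.add B (Nat.shiftLeft 1 (Nat.mul 2 x))) k = true at h
      rw [fr_eq] at h
      have h0 := hm 0
      have h1 := hm 1
      have h2 := hm 2
      have hx3 : x = 0 ∨ x = 1 ∨ x = 2 := by omega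
      have hi : Nat.shiftLeft 1 (Nat.mul 2 x) = inc x := by
        rcases hx3 with rfl | rfl | rfl <;> rfl
      rw [hi] at h
      have hm' : ∀ i, (m + ec x) i ≤ 3 := by
        rcases hx3 with rfl | rfl | rfl
        · have : m 0 ≠ 3 := h3
          refine fin3 ?_ ?_ ?_ <;> simp [ec] <;> omega
        · have : m 1 ≠ 3 := h3
          refine fin3 ?_ ?_ ?_ <;> simp [ec] <;> omega
        · have : m 2 ≠ 3 := h3
          refine fin3 ?_ ?_ ?_ <;> simp [ec] <;> omega
      refine ⟨h, hm', ?_⟩
      unfold hasPre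
      rw [beq_false_of (show x ≠ 3 by omega), land3, shr2]
      have e1 : (B + inc x) / 4 ^ x % 4 = (m + ec x) ⟨x, by omega⟩ := by
        have := congrFun (dc_en hm') ⟨x, by omega⟩
        rw [en_add (by omega), ← hB] at this
        exact this
      rw [e1]
      have e2 : (m + ec x) ⟨x, by omega⟩ ≠ 0 := by
        simp [ec]
      rw [beq_false_of e2]
      rfl

theorem mul1_sound (C : Ctx a t c) {V : R} {m : Fin 3 → ℕ} {B x n s : ℕ} {k : ℕ → ℕ → Bool}
    (hx : x ≤ 3) (hL : LOK a t c V m B n) (h : mul1 t c B x n s k = true) :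
    ∃ n' s', k n' s' = true ∧ LOK a t c (V * a x) (m + ec x) (B + inc x) n' := by
  obtain ⟨hB, hn, hV⟩ := hL
  have hB' : B + inc x = en (m + ec x) := by rw [hB, en_add hx]
  unfold mul1 at h
  by_cases h0 : n = 0
  · subst h0
    rw [show Nat.beq 0 0 = true from rfl] at h
    refine ⟨0, s, h, hB', fun h => absurd rfl h, ?_⟩
    rw [Fn_zero] at hV ⊢
    have := NN_mul a t c C.hsq hx hV
    rw [sub_mul, zero_mul] at this
    exact this
  · rw [beq_false_of h0] at h
    have hm := hn h0
    obtain ⟨h1, hm', hp⟩ := nxt_sound hx hB hm h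
    rw [ifb_and] at h1
    obtain ⟨hT, h1⟩ := h1
    have hT := Nat.le_of_ble_eq_true hT
    have hT64 : B + inc x < 64 := lt_of_le_of_lt hT C.hc
    have hdT : dc (B + inc x) = m + ec x := by rw [hB', dc_en hm']
    have hdB : dc B = m := by rw [hB, dc_en hm]
    obtain ⟨b1, b2, b3, b4⟩ := ckB_parts (C.hB _ hT64)
    have hD : ∀ c, c < 64 → ckD t c = true := fun c hc => (ckB_parts (C.hB c hc)).2.2.1
    have hBe : B + inc x - inc x = B := by omega
    have hck := ckX_use (b4 x hx) hp
    have h1' : lin (t (B + inc x)).d (t (B + inc x)).dp (1 <<< (t (B + inc x)).d - 1)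
        (t (B + inc x)).F (sel (t (B + inc x)).p0 (t (B + inc x)).p1 (t (B + inc x)).p2
        (t (B + inc x)).p3 x) 4095 s 0 0 (fun s' a1 a2 =>
          ifb (Nat.beq a1 (Nat.land n (Nat.sub (Nat.shiftLeft 1 (t B).d) 1)))
            (fr s' fun s'' => fr a2 fun n' => k n' s'') false) = true := by
      revert h1
      cases t (B + inc x) with
      | mk d dp wd df pr F p0 p1 p2 p3 =>
        intro h1
        dsimp only at h1
        rw [fr_eq] at h1
        exact h1
    have hrow := fun b k => row_sound a t C.hsq C.h2 hD hT64 hx b1 b2 hp hck b k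
    rw [hBe] at hrow
    have hvb : ∀ i, 4096 ≤ i → val a t B i = 0 := by
      intro i hi
      unfold val
      obtain ⟨c1, c2, _⟩ := ckB_parts (C.hB B (by omega))
      rw [if_neg (by omega)]
    obtain ⟨s', a1, a2, h3, h4⟩ := lin_sound (K a (dc (B + inc x)))
      (fun n => Fn (val a t B) n * a x) (Fn (fB a t (B + inc x)))
      (fun u v => by rw [Fn_xor C.h2, add_mul]) (Fn_xor C.h2 _) _ _ _ _ _
      (fun b k hk => by
        obtain ⟨r, r1, r2⟩ := hrow b k hk
        exact ⟨r, r1, by rw [Fn_one _ hvb]; exact r2⟩) _ _ _ _ _ h1'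
      (by rw [Fn_zero, Fn_zero, zero_mul, sub_zero]; exact (K a _).zero_mem)
    rw [ifb_and, fr_eq, fr_eq] at h3
    obtain ⟨h5, h6⟩ := h3
    have h5 := Nat.eq_of_beq_eq_true h5
    refine ⟨a2, s', h6, hB', fun _ => hm', ?_⟩
    rw [hdT] at h4
    have h7 : Fn (val a t B) a1 = Fn (val a t B) n := by
      rw [h5]
      exact Fn_mask _ _ _ _ (fun _ _ => rfl) (fun i hi => by
        unfold val; rw [if_neg (by omega)])
    have e : Fn (fB a t (B + inc x)) a2 - V * a x =
        (Fn (fB a t (B + inc x)) a2 - Fn (val a t B) a1 * a x) +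
        (Fn (val a t B) n - Fn (fB a t B) n) * a x + (Fn (fB a t B) n - V) * a x := by
      rw [h7, sub_mul, sub_mul]; abel
    rw [e]
    refine (NN a t c _).add_mem ((NN a t c _).add_mem (K_le_NN a t c _ h4) ?_)
      (NN_mul a t c C.hsq hx hV)
    rw [Fn_sub, Fn_mul]
    refine Fn_mem _ _ _ fun i _ => ?_
    by_cases i1 : i < (t B).d
    · rw [fB_small a t B i i1, sub_self, zero_mul]
      exact (NN a t c _).zero_mem
    · have hv0 : val a t B i = 0 := by unfold val; rw [if_neg i1]
      rw [hv0, zero_sub, neg_mul]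
      refine (NN a t c _).neg_mem ?_
      by_cases i2 : i < (t B).dp
      · have hBc : B ≤ c := by omega
        rcases Nat.lt_or_eq_of_le hBc with hlt | heq
        · have := K_mul a (dc B) hx (C.ok B hlt i (by omega) i2)
          rw [hdB] at this
          exact K_le_NN a t c _ this
        · have hx3 : x = 3 := by
            by_contra hne
            have hx3 : x = 0 ∨ x = 1 ∨ x = 2 := by omega
            rcases hx3 with rfl | rfl | rfl
            · rw [inc0] at hT; omega
            · rw [inc1] at hT; omega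
            · rw [inc2] at hT; omega
          subst hx3
          rw [ec_three, add_zero]
          unfold NN
          rw [if_pos (by rw [← heq, hdB])]
          refine (le_sup_right : DU a t c ≤ _) ?_
          exact AddSubgroup.subset_closure ⟨i, by rw [← heq]; omega, by rw [← heq]; exact i2,
            by rw [heq]⟩
      · obtain ⟨c1, c2, _⟩ := ckB_parts (C.hB B (by omega))
        rw [fB_big a t B i (by omega) c1, zero_mul]
        exact (NN a t c _).zero_mem

end ctx

end Pool.Agent.L3E.UX
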