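import Pool.Agent.L3E.UX.Sem2

/-!
# L3E, part (II) of (J1): meaning of the operations on trees (helper68)
-/

set_option autoImplicit false

namespace Pool.Agent.L3E.UX

section trees

variable {R : Type} [Ring R] (a : ℕ → R) (t : ℕ → Blk) (c : ℕ)

/-- meaning of a tree over the tags `j, …` (letters in the list, root first) -/
def Rep (j : ℕ) : List ℕ → (Finset ℕ → R) → (Fin 3 → ℕ) → ℕ → St → Prop
  | [], V, m, B, T => ∃ n, T = St.v n ∧ LOK a t c (V ∅) m B n
  | y :: τ, V, m, B, T => ∃ l r, T = St.b (inc y) l r ∧ Rep j τ V m B l ∧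
      Rep j τ (fun S => V (insert (τ.length + j) S)) (m + ec y) (B + inc y) r

theorem Rep_congr (j : ℕ) (τ : List ℕ) : ∀ (V1 V2 : Finset ℕ → R) (m : Fin 3 → ℕ) (B : ℕ)
    (T : St), (∀ S : Finset ℕ, (∀ i ∈ S, j ≤ i ∧ i < τ.length + j) → V1 S = V2 S) →
    Rep a t c j τ V1 m B T → Rep a t c j τ V2 m B T := by
  induction τ with
  | nil =>
    rintro V1 V2 m B T h ⟨n, h1, h2⟩
    refine ⟨n, h1, ?_⟩
    rw [← h ∅ (by simp)]
    exact h2
  | cons y τ ih =>
    rintro V1 V2 m B T h ⟨l, r, h1, h2, h3⟩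
    refine ⟨l, r, h1, ih V1 V2 m B l (fun S hS => h S fun i hi => ?_) h2,
      ih _ _ _ _ r (fun S hS => h _ fun i hi => ?_) h3⟩
    · have := hS i hi
      rw [List.length_cons]; omega
    · rw [List.length_cons]
      rcases Finset.mem_insert.1 hi with rfl | hi
      · omega
      · have := hS i hi
        omega

theorem mapX_sound (C : Ctx a t c) {x : ℕ} (hx : x ≤ 3) (j : ℕ) (τ : List ℕ) :
    ∀ (V : Finset ℕ → R) (m : Fin 3 → ℕ) (B : ℕ) (T : St) (s : ℕ) (k : St → ℕ → Bool),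
      Rep a t c j τ V m B T → mapX t c x T B s k = true →
      ∃ T' s', k T' s' = true ∧ Rep a t c j τ (fun S => V S * a x) (m + ec x) (B + inc x) T' := by
  induction τ with
  | nil =>
    rintro V m B T s k ⟨n, rfl, hL⟩ h
    change mul1 t c B x n s (fun n' s' => k (St.v n') s') = true at h
    obtain ⟨n', s', h1, h2⟩ := mul1_sound a t c C hx hL h
    exact ⟨St.v n', s', h1, n', rfl, h2⟩
  | cons y τ ih =>
    rintro V m B T s k ⟨l, r, rfl, hl, hr⟩ h
    change mapX t c x l B s (fun l' s' => mapX t c x r (Nat.add B (inc y)) s'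
      fun r' s'' => k (St.b (inc y) l' r') s'') = true at h
    obtain ⟨l', s1, h1, g1⟩ := ih _ _ _ _ _ _ hl h
    obtain ⟨r', s2, h2, g2⟩ := ih _ _ _ _ _ _ hr h1
    refine ⟨_, s2, h2, l', r', rfl, g1, ?_⟩
    rw [add_right_comm m, add_right_comm B]
    exact g2

theorem mapH_sound (C : Ctx a t c) (j : ℕ) (τ : List ℕ) :
    ∀ (V : Finset ℕ → R) (m : Fin 3 → ℕ) (B : ℕ) (T : St) (s : ℕ) (k : St → ℕ → Bool),
      Rep a t c j τ V m B T → mapH t c T B s k = true →
      ∃ T' s', k T' s' = true ∧ Rep a t c j τ (fun S => V S + V S * a 3) m B T' := by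
  induction τ with
  | nil =>
    rintro V m B T s k ⟨n, rfl, hL⟩ h
    change mul1 t c B 3 n s (fun n' s' => fr (Nat.xor n n') fun n'' => k (St.v n'') s') = true at h
    obtain ⟨n', s', h1, h2⟩ := mul1_sound a t c C (le_refl 3) hL h
    rw [fr_eq] at h1
    refine ⟨St.v (n ^^^ n'), s', h1, n ^^^ n', rfl, hL.1, ?_, ?_⟩
    · intro hne
      by_cases h0 : n = 0
      · have := h2.2.1 (by rintro rfl; exact hne (by rw [h0]; rfl))
        rwa [ec_three, add_zero] at this
      · exact hL.2.1 h0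
    · rw [Fn_xor C.h2]
      have h3 := h2.2.2
      rw [ec_three, inc3, add_zero, add_zero] at h3
      have e : Fn (fB a t B) n + Fn (fB a t B) n' - (V ∅ + V ∅ * a 3) =
          (Fn (fB a t B) n - V ∅) + (Fn (fB a t B) n' - V ∅ * a 3) := by abel
      rw [e]
      exact (NN a t c m).add_mem hL.2.2 h3
  | cons y τ ih =>
    rintro V m B T s k ⟨l, r, rfl, hl, hr⟩ h
    change mapH t c l B s (fun l' s' => mapH t c r (Nat.add B (inc y)) s'
      fun r' s'' => k (St.b (inc y) l' r') s'') = true at h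
    obtain ⟨l', s1, h1, g1⟩ := ih _ _ _ _ _ _ hl h
    obtain ⟨r', s2, h2, g2⟩ := ih _ _ _ _ _ _ hr h1
    exact ⟨_, s2, h2, l', r', rfl, g1, g2⟩

theorem zipX_sound (C : Ctx a t c) {x : ℕ} (hx : x ≤ 3) (j : ℕ) (τ : List ℕ) :
    ∀ (V1 V2 : Finset ℕ → R) (m : Fin 3 → ℕ) (B : ℕ) (l r : St) (s : ℕ) (k : St → ℕ → Bool),
      Rep a t c j τ V1 m B l → Rep a t c j τ V2 (m + ec x) (B + inc x) r →
      zipX t c x l r B s k = true →
      ∃ T' s', k T' s' = true ∧
        Rep a t c j τ (fun S => V2 S + V1 S * a x) (m + ec x) (B + inc x) T' := by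
  induction τ with
  | nil =>
    rintro V1 V2 m B l r s k ⟨n1, rfl, h1⟩ ⟨n2, rfl, h2⟩ h
    change mul1 t c B x n1 s (fun m' s' => fr (Nat.xor n2 m') fun n' => k (St.v n') s') = true at h
    obtain ⟨n', s', h3, h4⟩ := mul1_sound a t c C hx h1 h
    rw [fr_eq] at h3
    refine ⟨_, s', h3, _, rfl, h4.1, ?_, ?_⟩
    · intro hne
      by_cases h0 : n2 = 0
      · exact h4.2.1 (by rintro rfl; exact hne (by rw [h0]; rfl))
      · exact h2.2.1 h0
    · rw [show Nat.xor n2 n' = n2 ^^^ n' from rfl, Fn_xor C.h2]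
      have e : Fn (fB a t (B + inc x)) n2 + Fn (fB a t (B + inc x)) n' - (V2 ∅ + V1 ∅ * a x) =
          (Fn (fB a t (B + inc x)) n2 - V2 ∅) +
            (Fn (fB a t (B + inc x)) n' - V1 ∅ * a x) := by abel
      rw [e]
      exact (NN a t c _).add_mem h2.2.2 h4.2.2
  | cons y τ ih =>
    rintro V1 V2 m B l r s k ⟨l1, r1, rfl, hl1, hr1⟩ ⟨l2, r2, rfl, hl2, hr2⟩ h
    change ifb (Nat.beq (inc y) (inc y)) (zipX t c x l1 l2 B s fun l' s' =>
      zipX t c x r1 r2 (Nat.add B (inc y)) s' fun r' s'' => k (St.b (inc y) l' r') s'')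
      false = true at h
    rw [ifb_and] at h
    obtain ⟨l', s1, h1, g1⟩ := ih _ _ _ _ _ _ _ _ hl1 hl2 h.2
    rw [add_right_comm m, add_right_comm B] at hr2
    obtain ⟨r', s2, h2, g2⟩ := ih _ _ _ _ _ _ _ _ hr1 hr2 h1
    refine ⟨_, s2, h2, l', r', rfl, g1, ?_⟩
    rw [add_right_comm m, add_right_comm B]
    exact g2

/-- the operation of a tag -/
def opV (id x : ℕ) (V : Finset ℕ → R) : Finset ℕ → R :=
  fun S => V S + if id ∈ S then V (S.erase id) * a x else 0

theorem pass2_sound (C : Ctx a t c) {x : ℕ} (hx : x ≤ 3) (j : ℕ) (τ2 τ1 : List ℕ) :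
    ∀ (V : Finset ℕ → R) (m : Fin 3 → ℕ) (B : ℕ) (T : St) (s : ℕ) (k : St → ℕ → Bool),
      Rep a t c j (τ1 ++ x :: τ2) V m B T → pass2 t c x τ1.length T B s k = true →
      ∃ T' s', k T' s' = true ∧
        Rep a t c j (τ1 ++ x :: τ2) (opV a (τ2.length + j) x V) m B T' := by
  induction τ1 with
  | nil =>
    rintro V m B T s k ⟨l, r, rfl, hl, hr⟩ h
    change zipX t c x l r B s (fun r' s' => k (St.b (inc x) l r') s') = true at h
    obtain ⟨r', s1, h1, g1⟩ := zipX_sound a t c C hx j τ2 _ _ _ _ _ _ _ _ hl hr h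
    refine ⟨_, s1, h1, l, r', rfl, ?_, ?_⟩
    · refine Rep_congr a t c j τ2 _ _ _ _ _ ?_ hl
      intro S hS
      have hn : τ2.length + j ∉ S := fun hh => by have := hS _ hh; omega
      simp only [opV, hn, if_false, add_zero]
    · refine Rep_congr a t c j τ2 _ _ _ _ _ ?_ g1
      intro S hS
      have hn : τ2.length + j ∉ S := fun hh => by have := hS _ hh; omega
      simp only [opV, Finset.mem_insert_self, if_true, Finset.erase_insert hn]
  | cons y τ1 ih =>
    intro V m B T s k hR h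
    rw [List.cons_append] at hR ⊢
    obtain ⟨l, r, rfl, hl, hr⟩ := hR
    change pass2 t c x τ1.length l B s (fun l' s' => pass2 t c x τ1.length r (Nat.add B (inc y)) s'
      fun r' s'' => k (St.b (inc y) l' r') s'') = true at h
    obtain ⟨l', s1, h1, g1⟩ := ih _ _ _ _ _ _ hl h
    obtain ⟨r', s2, h2, g2⟩ := ih _ _ _ _ _ _ hr h1
    refine ⟨_, s2, h2, l', r', rfl, g1, ?_⟩
    refine Rep_congr a t c j _ _ _ _ _ _ ?_ g2
    intro S _
    have hne : (τ1 ++ x :: τ2).length + j ≠ τ2.length + j := by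
      simp only [List.length_append, List.length_cons]; omega
    simp only [opV, Finset.mem_insert, hne.symm, false_or]
    by_cases hS : τ2.length + j ∈ S
    · simp only [hS, if_true]
      rw [Finset.erase_insert_of_ne hne]
    · simp only [hS, if_false]

theorem pass3_sound (C : Ctx a t c) {x : ℕ} (hx : x ≤ 3) (j : ℕ) (τ1 : List ℕ) :
    ∀ (V : Finset ℕ → R) (m : Fin 3 → ℕ) (B : ℕ) (T : St) (s : ℕ) (k : St → ℕ → Bool),
      Rep a t c j (τ1 ++ [x]) V m B T → pass3 t c x τ1.length T B s k = true →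
      ∃ T' s', k T' s' = true ∧
        Rep a t c (j + 1) τ1 (fun S => V (insert j S) + V S * a x) (m + ec x) (B + inc x) T' := by
  induction τ1 with
  | nil =>
    rintro V m B T s k ⟨l, r, rfl, hl, hr⟩ h
    change zipX t c x l r B s k = true at h
    obtain ⟨r', s1, h1, g1⟩ := zipX_sound a t c C hx j [] _ _ _ _ _ _ _ _ hl hr h
    refine ⟨r', s1, h1, ?_⟩
    obtain ⟨n, hn, hL⟩ := g1
    refine ⟨n, hn, ?_⟩
    simpa using hL
  | cons y τ1 ih =>
    intro V m B T s k hR h
    rw [List.cons_append] at hR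
    obtain ⟨l, r, rfl, hl, hr⟩ := hR
    change pass3 t c x τ1.length l B s (fun l' s' => pass3 t c x τ1.length r (Nat.add B (inc y)) s'
      fun r' s'' => k (St.b (inc y) l' r') s'') = true at h
    obtain ⟨l', s1, h1, g1⟩ := ih _ _ _ _ _ _ hl h
    obtain ⟨r', s2, h2, g2⟩ := ih _ _ _ _ _ _ hr h1
    refine ⟨_, s2, h2, l', r', rfl, g1, ?_⟩
    rw [add_right_comm m, add_right_comm B]
    refine Rep_congr a t c (j + 1) _ _ _ _ _ _ ?_ g2
    intro S _
    have e : (τ1 ++ [x]).length + j = τ1.length + (j + 1) := by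
      simp only [List.length_append, List.length_cons, List.length_nil]; omega
    rw [e]
    simp only [Finset.insert_comm j (τ1.length + (j + 1)) S]

end trees

end Pool.Agent.L3E.UX
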