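import Pool.Agent.L3E.UX.Sem3

/-!
# L3E, part (II) of (J1): meaning of the passes and of the instances (helper68)
-/

set_option autoImplicit false

namespace Pool.Agent.L3E.UX

/-- the tags of a list of hats -/
def tg : List ℕ → List ℕ
  | [] => []
  | x :: hh => if x = 3 then tg hh else x :: tg hh

def ops : List ℕ → List Op
  | [] => []
  | x :: hh => (if x = 3 then Op.H else Op.G (tg hh).length x) :: ops hh

def tsum : List ℕ → (Fin 3 → ℕ)
  | [] => 0
  | x :: τ => tsum τ + ec x

theorem tg_three (hh : List ℕ) : tg (3 :: hh) = tg hh := rfl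

theorem tg_ne {x : ℕ} (hx : x ≠ 3) (hh : List ℕ) : tg (x :: hh) = x :: tg hh := by
  simp [tg, hx]

theorem ops_three (hh : List ℕ) : ops (3 :: hh) = Op.H :: ops hh := rfl

theorem ops_ne {x : ℕ} (hx : x ≠ 3) (hh : List ℕ) :
    ops (x :: hh) = Op.G (tg hh).length x :: ops hh := by
  simp [ops, hx]

theorem ops_hat (hh : List ℕ) : ∀ o ∈ ops hh, isHat o := by
  induction hh with
  | nil => intro o ho; simp [ops] at ho
  | cons x hh ih =>
    intro o ho
    by_cases hx : x = 3
    · subst hx
      rw [ops_three] at ho
      rcases List.mem_cons.1 ho with rfl | ho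
      · exact trivial
      · exact ih o ho
    · rw [ops_ne hx] at ho
      rcases List.mem_cons.1 ho with rfl | ho
      · exact trivial
      · exact ih o ho

theorem ops_mem (hh : List ℕ) (h3 : ∀ x ∈ hh, x ≤ 3) : ∀ j x, Op.G j x ∈ ops hh →
    x ≤ 2 ∧ j < (tg hh).length ∧ (tg hh).reverse.getD j 0 = x := by
  induction hh with
  | nil => intro j x ho; simp [ops] at ho
  | cons y hh ih =>
    intro j x ho
    have ih' := ih (fun x hx => h3 x (List.mem_cons_of_mem _ hx))
    by_cases hy : y = 3
    · subst hy
      rw [ops_three] at ho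
      rw [tg_three]
      rcases List.mem_cons.1 ho with h | ho
      · exact absurd h (by simp)
      · exact ih' j x ho
    · rw [ops_ne hy] at ho
      rw [tg_ne hy, List.reverse_cons, List.length_cons]
      rcases List.mem_cons.1 ho with h | ho
      · rw [Op.G.injEq] at h
        obtain ⟨rfl, rfl⟩ := h
        have := h3 x (by simp)
        refine ⟨by omega, by omega, ?_⟩
        rw [List.getD_append_right _ _ _ _ (by rw [List.length_reverse])]
        simp
      · obtain ⟨h1, h2, h4⟩ := ih' j x ho
        refine ⟨h1, by omega, ?_⟩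
        rw [List.getD_append _ _ _ _ (by rw [List.length_reverse]; exact h2)]
        exact h4

theorem tsum_eq (τ : List ℕ) :
    ∑ j ∈ Finset.range τ.length, ec (τ.reverse.getD j 0) = tsum τ := by
  induction τ with
  | nil => simp [tsum]
  | cons x τ ih =>
    rw [List.length_cons, Finset.sum_range_succ, List.reverse_cons]
    have h1 : ∑ j ∈ Finset.range τ.length, ec ((τ.reverse ++ [x]).getD j 0) = tsum τ := by
      rw [← ih]
      refine Finset.sum_congr rfl fun j hj => ?_
      rw [List.getD_append _ _ _ _ (by rw [List.length_reverse]; exact Finset.mem_range.1 hj)]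
    rw [h1, List.getD_append_right _ _ _ _ (by rw [List.length_reverse])]
    simp [tsum]

theorem bs_append (l1 l2 : List Op) : bs (l1 ++ l2) = bs l1 + bs l2 := by
  induction l1 with
  | nil => simp [bs]
  | cons o l ih =>
    cases o with
    | X x => rw [List.cons_append]; simp only [bs]; rw [ih]; abel
    | H => exact ih
    | G j x => exact ih

theorem bs_hat (l : List Op) (h : ∀ o ∈ l, isHat o) : bs l = 0 := by
  induction l with
  | nil => rfl
  | cons o l ih =>
    have ih' := ih (fun o ho => h o (List.mem_cons_of_mem _ ho))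
    cases o with
    | X x => exact absurd (h (Op.X x) (by simp)) (by simp [isHat])
    | H => exact ih'
    | G j x => exact ih'

section passes

variable {R : Type} [Ring R] (a : ℕ → R) (t : ℕ → Blk) (c : ℕ)

theorem Vf_unused (g : R) (l : List Op) (J : ℕ) (hl : ∀ j x, Op.G j x ∈ l → j < J) :
    ∀ (S : Finset ℕ) (i : ℕ), i ∈ S → J ≤ i → Vf a g l S = 0 := by
  induction l with
  | nil =>
    intro S i hi _
    have : S ≠ ∅ := Finset.ne_empty_of_mem hi
    simp [Vf, this]
  | cons o l ih =>
    have ih' := ih (fun j x hx => hl j x (List.mem_cons_of_mem _ hx))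
    intro S i hi hJ
    cases o with
    | X x => simp only [Vf]; rw [ih' S i hi hJ, zero_mul]
    | H => simp only [Vf]; rw [ih' S i hi hJ, zero_mul, add_zero]
    | G j x =>
      simp only [Vf]
      have hj := hl j x (by simp)
      rw [ih' S i hi hJ, ih' (S.erase j) i (Finset.mem_erase.2 ⟨by omega, hi⟩) hJ]
      simp

theorem p1_sound (C : Ctx a t c) (g : R) (xa : ℕ) (f : ℕ) :
    ∀ (hh : List ℕ) (m : Fin 3 → ℕ) (B : ℕ) (T : St) (s : ℕ) (k : List ℕ → St → ℕ → Bool),
      (∀ x ∈ hh, x ≤ 3) → Rep a t c 0 (tg hh) (Vf a g (ops hh ++ [Op.X xa])) m B T →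
      p1 t c f hh T B s k = true →
      ∃ hh' T' s', k hh' T' s' = true ∧ (∀ x ∈ hh', x ≤ 3) ∧
        Rep a t c 0 (tg hh') (Vf a g (ops hh' ++ [Op.X xa])) m B T' := by
  induction f with
  | zero => intro hh m B T s k _ _ h; exact absurd h (by simp [p1])
  | succ f ih =>
    intro hh m B T s k h3 hR h
    unfold p1 at h
    dsimp only at h
    rw [fr_eq, fr_eq] at h
    revert h
    cases Nat.land s 4095 with
    | zero => intro h; exact ⟨hh, T, _, h, h3, hR⟩
    | succ x =>
      intro h
      change ifb (Nat.beq x 3)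
          (mapH t c T B (Nat.shiftRight s 12) fun t' s' => p1 t c f (List.cons x hh) t' B s' k)
          (ifb (Nat.ble x 2) (mapX t c x T B (Nat.shiftRight s 12) fun t' s' =>
            p1 t c f (List.cons x hh) (St.b (inc x) T t') B s' k) false) = true at h
      by_cases hx : x = 3
      · subst hx
        change mapH t c T B (Nat.shiftRight s 12)
          (fun t' s' => p1 t c f (List.cons 3 hh) t' B s' k) = true at h
        obtain ⟨T', s', h1, g1⟩ := mapH_sound a t c C 0 _ _ _ _ _ _ _ hR h
        refine ih (3 :: hh) m B T' s' k ?_ ?_ h1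
        · intro x hx
          rcases List.mem_cons.1 hx with rfl | hx
          · exact le_refl _
          · exact h3 x hx
        · rw [tg_three, ops_three]
          exact g1
      · rw [beq_false_of hx] at h
        change ifb (Nat.ble x 2) (mapX t c x T B (Nat.shiftRight s 12) fun t' s' =>
            p1 t c f (List.cons x hh) (St.b (inc x) T t') B s' k) false = true at h
        rw [ifb_and] at h
        have hx2 := Nat.le_of_ble_eq_true h.1
        obtain ⟨T', s', h1, g1⟩ := mapX_sound a t c C (show x ≤ 3 by omega) 0 _ _ _ _ _ _ _ hR h.2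
        refine ih (x :: hh) m B _ s' k ?_ ?_ h1
        · intro y hy
          rcases List.mem_cons.1 hy with rfl | hy
          · omega
          · exact h3 y hy
        · rw [tg_ne hx, ops_ne hx]
          refine ⟨T, T', rfl, ?_, ?_⟩
          · refine Rep_congr a t c 0 _ _ _ _ _ _ ?_ hR
            intro S hS
            have hn : (tg hh).length ∉ S := fun hh => by have := hS _ hh; omega
            simp only [List.cons_append, Vf, hn, if_false, add_zero]
          · refine Rep_congr a t c 0 _ _ _ _ _ _ ?_ g1
            intro S hS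
            have hn : (tg hh).length ∉ S := fun hh => by have := hS _ hh; omega
            simp only [List.cons_append, Vf, add_zero, Finset.mem_insert_self, if_true,
              Finset.erase_insert hn]
            rw [Vf_unused a g (ops hh ++ [Op.X xa]) (tg hh).length ?_ (insert (tg hh).length S)
              (tg hh).length (Finset.mem_insert_self _ _) (le_refl _), zero_add]
            intro j y hy
            rcases List.mem_append.1 hy with hy | hy
            · exact (ops_mem hh h3 j y hy).2.1
            · simp at hy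

theorem p2_sound (C : Ctx a t c) (g : R) (suf : List ℕ) :
    ∀ (τ1 : List ℕ) (l : List Op) (m : Fin 3 → ℕ) (B : ℕ) (T : St) (s : ℕ)
      (k : St → ℕ → Bool), (∀ x ∈ suf, x ≤ 3) → Rep a t c 0 (τ1 ++ tg suf) (Vf a g l) m B T →
      p2 t c suf τ1.length T B s k = true →
      ∃ T' s', k T' s' = true ∧
        Rep a t c 0 (τ1 ++ tg suf) (Vf a g ((ops suf).reverse ++ l)) m B T' := by
  induction suf with
  | nil => intro τ1 l m B T s k _ hR h; exact ⟨T, s, h, hR⟩
  | cons x suf ih =>
    intro τ1 l m B T s k h3 hR h
    have h3' : ∀ x ∈ suf, x ≤ 3 := fun y hy => h3 y (List.mem_cons_of_mem _ hy)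
    change ifb (Nat.beq x 3)
      (mapH t c T B s fun t' s' => p2 t c suf τ1.length t' B s' k)
      (pass2 t c x τ1.length T B s fun t' s' => p2 t c suf (Nat.succ τ1.length) t' B s' k)
        = true at h
    by_cases hx : x = 3
    · subst hx
      change mapH t c T B s (fun t' s' => p2 t c suf τ1.length t' B s' k) = true at h
      rw [tg_three] at hR ⊢
      rw [ops_three]
      obtain ⟨T', s', h1, g1⟩ := mapH_sound a t c C 0 _ _ _ _ _ _ _ hR h
      obtain ⟨T'', s'', h2, g2⟩ := ih τ1 (Op.H :: l) m B T' s' k h3' g1 h1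
      refine ⟨T'', s'', h2, ?_⟩
      rw [List.reverse_cons, List.append_assoc]
      exact g2
    · rw [beq_false_of hx] at h
      change pass2 t c x τ1.length T B s (fun t' s' => p2 t c suf (Nat.succ τ1.length) t' B s' k)
        = true at h
      rw [tg_ne hx] at hR ⊢
      rw [ops_ne hx]
      obtain ⟨T', s', h1, g1⟩ := pass2_sound a t c C (h3 x (by simp)) 0 (tg suf) τ1 _ _ _ _ _ _
        hR h
      have e : τ1 ++ x :: tg suf = (τ1 ++ [x]) ++ tg suf := by simp
      have e2 : (τ1 ++ [x]).length = Nat.succ τ1.length := by simp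
      rw [e] at g1 ⊢
      rw [← e2] at h1
      obtain ⟨T'', s'', h2, g2⟩ := ih (τ1 ++ [x]) (Op.G (tg suf).length x :: l) m B T' s' k h3'
        g1 h1
      refine ⟨T'', s'', h2, ?_⟩
      rw [List.reverse_cons, List.append_assoc (ops suf).reverse]
      exact g2

theorem p3_sound (C : Ctx a t c) (g : R) (suf : List ℕ) :
    ∀ (τ1 : List ℕ) (l : List Op) (m : Fin 3 → ℕ) (B : ℕ) (T : St) (s : ℕ)
      (k : St → ℕ → ℕ → Bool), (∀ x ∈ suf, x ≤ 3) →
      Rep a t c 0 (τ1 ++ tg suf) (Vf a g l) m B T → p3 t c suf τ1.length T B s k = true →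
      ∃ T' B' s', k T' B' s' = true ∧ Rep a t c (tg suf).length τ1
        (fun S => Vf a g (ops suf ++ l) (S ∪ Finset.range (tg suf).length))
        (m + tsum (tg suf)) B' T' := by
  induction suf with
  | nil =>
    intro τ1 l m B T s k _ hR h
    refine ⟨T, B, s, h, ?_⟩
    simp only [tg, tsum, ops, List.nil_append, add_zero, List.length_nil, Finset.range_zero,
      Finset.union_empty]
    simp only [tg, List.append_nil] at hR
    exact hR
  | cons x suf ih =>
    intro τ1 l m B T s k h3 hR h
    have h3' : ∀ x ∈ suf, x ≤ 3 := fun y hy => h3 y (List.mem_cons_of_mem _ hy)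
    change ifb (Nat.beq x 3)
      (p3 t c suf τ1.length T B s fun t' B' s' => mapH t c t' B' s' fun t'' s'' => k t'' B' s'')
      (p3 t c suf (Nat.succ τ1.length) T B s fun t' B' s' =>
        pass3 t c x τ1.length t' B' s' fun t'' s'' =>
        fr (Nat.add B' (inc x)) fun B'' => k t'' B'' s'') = true at h
    by_cases hx : x = 3
    · subst hx
      change p3 t c suf τ1.length T B s (fun t' B' s' => mapH t c t' B' s'
        fun t'' s'' => k t'' B' s'') = true at h
      rw [tg_three] at hR ⊢
      rw [ops_three]
      obtain ⟨T', B', s', h1, g1⟩ := ih τ1 l m B T s _ h3' hR h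
      obtain ⟨T'', s'', h2, g2⟩ := mapH_sound a t c C _ _ _ _ _ _ _ _ g1 h1
      exact ⟨T'', B', s'', h2, g2⟩
    · rw [beq_false_of hx] at h
      change p3 t c suf (Nat.succ τ1.length) T B s (fun t' B' s' =>
        pass3 t c x τ1.length t' B' s' fun t'' s'' =>
        fr (Nat.add B' (inc x)) fun B'' => k t'' B'' s'') = true at h
      rw [tg_ne hx] at hR ⊢
      rw [ops_ne hx]
      have e : τ1 ++ x :: tg suf = (τ1 ++ [x]) ++ tg suf := by simp
      have e2 : (τ1 ++ [x]).length = Nat.succ τ1.length := by simp
      rw [e] at hR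
      rw [← e2] at h
      obtain ⟨T', B', s', h1, g1⟩ := ih (τ1 ++ [x]) l m B T s _ h3' hR h
      obtain ⟨T'', s'', h2, g2⟩ := pass3_sound a t c C (h3 x (by simp)) _ τ1 _ _ _ _ _ _ g1 h1
      rw [fr_eq] at h2
      refine ⟨T'', B' + inc x, s'', h2, ?_⟩
      rw [List.length_cons]
      have e3 : m + tsum (x :: tg suf) = m + tsum (tg suf) + ec x := by
        rw [add_assoc]; rfl
      rw [e3]
      refine Rep_congr a t c _ _ _ _ _ _ _ ?_ g2
      intro S hS
      have hn : (tg suf).length ∉ S := fun hh => by have := hS _ hh; omega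
      have e4 : insert (tg suf).length S ∪ Finset.range (tg suf).length =
          S ∪ Finset.range ((tg suf).length + 1) := by
        rw [Finset.range_add_one, Finset.insert_union, Finset.union_insert]
      have e5 : (S ∪ Finset.range ((tg suf).length + 1)).erase (tg suf).length =
          S ∪ Finset.range (tg suf).length := by
        rw [Finset.range_add_one, Finset.union_insert, Finset.erase_insert]
        rw [Finset.mem_union, not_or]
        exact ⟨hn, by simp⟩
      have e6 : (tg suf).length ∈ S ∪ Finset.range ((tg suf).length + 1) := by simp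
      simp only [List.cons_append, Vf, e6, if_true]
      rw [e4, e5]

theorem nxt_le {B x : ℕ} {k : ℕ → Bool} (h : nxt B x k = true) : ∃ T, B ≤ T ∧ k T = true := by
  unfold nxt at h
  cases h1 : Nat.beq x 3 with
  | true =>
    rw [h1] at h
    exact ⟨B, le_refl _, h⟩
  | false =>
    rw [h1] at h
    change ifb (Nat.ble x 2) (ifb (Nat.beq (Nat.land (Nat.shiftRight B (Nat.mul 2 x)) 3) 3) false
        (fr (Nat.add B (Nat.shiftLeft 1 (Nat.mul 2 x))) k)) false = true at h
    rw [ifb_and] at h
    have h2 := h.2
    cases h3 : Nat.beq (Nat.land (Nat.shiftRight B (Nat.mul 2 x)) 3) 3 with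
    | true => rw [h3] at h2; exact absurd h2 (by simp [ifb])
    | false =>
      rw [h3] at h2
      change fr (Nat.add B (Nat.shiftLeft 1 (Nat.mul 2 x))) k = true at h2
      rw [fr_eq] at h2
      exact ⟨_, Nat.le_add_right _ _, h2⟩

theorem mul1_le {B x n s : ℕ} {k : ℕ → ℕ → Bool} (hn : n ≠ 0)
    (h : mul1 t c B x n s k = true) : B ≤ c := by
  unfold mul1 at h
  rw [beq_false_of hn] at h
  obtain ⟨T, h1, h2⟩ := nxt_le h
  rw [ifb_and] at h2
  have := Nat.le_of_ble_eq_true h2.1
  omega

end passes

end Pool.Agent.L3E.UX
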