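import Pool.Agent.L3E.UX.Sem4

/-!
# L3E, part (II) of (J1): meaning of the checks (helper68)
-/

set_option autoImplicit false

namespace Pool.Agent.L3E.UX

/-- invariants of the stored vectors and of the set of open pairs -/
def Inv {R : Type} [Ring R] (f : ℕ → R) (N : AddSubgroup R) (w S G gs : ℕ) : Prop :=
  (∀ j, Fn f ((G >>> (w * j)) &&& (1 <<< w - 1)) ∈ N) ∧ (∀ i, S.testBit i = false → f i ∈ N) ∧
    ∃ q, gs = w * q ∧ ∀ i, w * q ≤ i → G.testBit i = false

section checks

variable {R : Type} [Ring R]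

theorem addG_sound (h2 : (2 : R) = 0) (f : ℕ → R) (N : AddSubgroup R) (w G : ℕ)
    (hG : ∀ j, Fn f ((G >>> (w * j)) &&& (1 <<< w - 1)) ∈ N) (fuel : ℕ) :
    ∀ (s E : ℕ) (k : ℕ → ℕ → Bool), addG w (1 <<< w - 1) G fuel s E k = true → Fn f E ∈ N →
      ∃ s' E', k s' E' = true ∧ Fn f E' ∈ N := by
  induction fuel with
  | zero => intro s E k h _; exact absurd h (by simp [addG])
  | succ fuel ih =>
    intro s E k h hE
    unfold addG at h
    dsimp only at h
    revert h
    cases Nat.land s 4095 with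
    | zero => intro h; exact ⟨_, _, h, hE⟩
    | succ j =>
      intro h
      refine ih _ _ k h ?_
      change Fn f (E ^^^ ((G >>> (w * j)) &&& (1 <<< w - 1))) ∈ N
      rw [Fn_xor h2]
      exact N.add_mem hE (hG j)

theorem store_bits {w q G E : ℕ} (hG : ∀ i, w * q ≤ i → G.testBit i = false)
    (hE : E >>> w = 0) (j : ℕ) :
    ((G ^^^ (E <<< (w * q))) >>> (w * j)) &&& (1 <<< w - 1) =
      if j = q then E else (G >>> (w * j)) &&& (1 <<< w - 1) := by
  have hE' : ∀ i, w ≤ i → E.testBit i = false := by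
    intro i hi
    obtain ⟨k, rfl⟩ := Nat.exists_eq_add_of_le hi
    have := Nat.testBit_shiftRight (i := w) (j := k) E
    rw [← this, hE, Nat.zero_testBit]
  apply Nat.eq_of_testBit_eq
  intro i
  rw [tb_mask, Nat.testBit_shiftRight, Nat.testBit_xor, Nat.testBit_shiftLeft]
  rcases lt_trichotomy j q with h | h | h
  · rw [if_neg (by omega), tb_mask, Nat.testBit_shiftRight]
    by_cases hi : i < w
    · have h1 : w * (j + 1) ≤ w * q := Nat.mul_le_mul_left w h
      rw [mul_add] at h1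
      have h3 : ¬ (w * q ≤ w * j + i) := by omega
      simp [h3]
    · simp [hi]
  · subst h
    rw [if_pos rfl]
    have h1 : w * j + i - w * j = i := by omega
    rw [hG _ (by omega), h1]
    by_cases hi : i < w
    · simp [hi]
    · simp [hi, hE' i (by omega)]
  · rw [if_neg (by omega), tb_mask, Nat.testBit_shiftRight]
    have h1 : w * (q + 1) ≤ w * j := Nat.mul_le_mul_left w h
    rw [mul_add] at h1
    rw [hE' (w * j + i - w * q) (by omega)]
    simp

theorem act_sound (h2 : (2 : R) = 0) (f : ℕ → R) (hf : ∀ i, 4096 ≤ i → f i = 0)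
    (N : AddSubgroup R) (w S G gs E s : ℕ) (k : ℕ → ℕ → ℕ → ℕ → Bool)
    (hI : Inv f N w S G gs) (hE : Fn f E ∈ N) (h : act w (1 <<< w - 1) E s S G gs k = true) :
    ∃ s' S' G' gs', k s' S' G' gs' = true ∧ Inv f N w S' G' gs' := by
  obtain ⟨hG, hS, q, rfl, hq⟩ := hI
  unfold act at h
  obtain ⟨s1, E2, h1, hE2⟩ := addG_sound h2 f N w G hG 4095 _ _ _ h hE
  rw [fr_eq, fr_eq] at h1
  revert h1
  cases Nat.land s1 4095 with
  | zero =>
    intro h1
    change ifb (Nat.beq (Nat.shiftRight E2 w) 0)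
        (fr (Nat.shiftRight s1 12) fun s3 => fr (Nat.xor G (Nat.shiftLeft E2 (w * q))) fun G' =>
          fr (Nat.add (w * q) w) fun gs' => k s3 S G' gs') false = true at h1
    rw [ifb_and, fr_eq, fr_eq, fr_eq] at h1
    have h3 : E2 >>> w = 0 := Nat.eq_of_beq_eq_true h1.1
    refine ⟨_, _, _, _, h1.2, ?_, hS, q + 1, by rw [mul_add, mul_one]; rfl, ?_⟩
    · intro j
      change Fn f (((G ^^^ (E2 <<< (w * q))) >>> (w * j)) &&& (1 <<< w - 1)) ∈ N
      rw [store_bits hq h3 j]
      split_ifs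
      · exact hE2
      · exact hG j
    · intro i hi
      rw [mul_add, mul_one] at hi
      change (G ^^^ (E2 <<< (w * q))).testBit i = false
      rw [Nat.testBit_xor, Nat.testBit_shiftLeft, hq i (by omega)]
      have h4 : E2.testBit (i - w * q) = false := by
        obtain ⟨k', hk'⟩ := Nat.exists_eq_add_of_le (show w ≤ i - w * q by omega)
        have := Nat.testBit_shiftRight (i := w) (j := k') E2
        rw [hk', ← this, h3, Nat.zero_testBit]
      rw [h4]; simp
  | succ e =>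
    intro h1
    change ifb (Nat.beq (Nat.land E2 S) (Nat.shiftLeft 1 e))
        (fr (Nat.shiftRight s1 12) fun s3 => fr (Nat.xor S (Nat.shiftLeft 1 e)) fun S' =>
          k s3 S' G (w * q)) false = true at h1
    rw [ifb_and, fr_eq, fr_eq] at h1
    have h3 : E2 &&& S = 1 <<< e := Nat.eq_of_beq_eq_true h1.1
    have hb : ∀ i, (E2.testBit i && S.testBit i) = decide (e = i) := by
      intro i
      rw [← Nat.testBit_and, h3, Nat.one_shiftLeft, Nat.testBit_two_pow]
    have he : f e ∈ N := by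
      have h4 : Fn f (E2 ^^^ (1 <<< e)) ∈ N := by
        refine Fn_mem _ _ _ fun i hi => ?_
        rw [Nat.testBit_xor, Nat.one_shiftLeft, Nat.testBit_two_pow] at hi
        by_cases hie : e = i
        · have := hb i
          simp only [hie, decide_true, Bool.and_eq_true] at this
          rw [this.1] at hi
          simp [hie] at hi
        · have h5 : E2.testBit i = true := by simpa [hie] using hi
          have := hb i
          rw [h5] at this
          simp only [hie, decide_false, Bool.true_and] at this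
          exact hS i this
      rw [Fn_xor h2, Fn_one f hf] at h4
      have := N.sub_mem h4 hE2
      simpa using this
    refine ⟨_, _, _, _, h1.2, hG, ?_, q, rfl, hq⟩
    intro i hi
    change (S ^^^ (1 <<< e)).testBit i = false at hi
    rw [Nat.testBit_xor, Nat.one_shiftLeft, Nat.testBit_two_pow] at hi
    by_cases hie : e = i
    · rw [← hie]; exact he
    · exact hS i (by simpa [hie] using hi)

variable (a : ℕ → R) (t : ℕ → Blk) (c : ℕ)

theorem NN_U (hsq : ∀ x, a x * a x = 0) {r : R} (hr : r ∈ NN a t c (dc c)) :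
    r * a 3 ∈ K a (dc c) := by
  unfold NN at hr
  rw [if_pos rfl] at hr
  obtain ⟨u, hu, v, hv, rfl⟩ := AddSubgroup.mem_sup.1 hr
  rw [add_mul]
  have k1 := K_mul a (dc c) (le_refl 3) hu
  rw [ec_three, add_zero] at k1
  refine (K a _).add_mem k1 ?_
  refine mul_closure (a 3) ?_ v hv
  rintro _ ⟨i, _, _, rfl⟩
  rw [mul_assoc, hsq, mul_zero]
  exact (K a _).zero_mem

theorem NN_le_K (hsq : ∀ x, a x * a x = 0)
    (hf : ∀ i, (t c).d ≤ i → i < (t c).dp → fB a t c i ∈ NN a t c (dc c)) :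
    NN a t c (dc c) ≤ K a (dc c) := by
  have h1 : DU a t c ≤ K a (dc c) := by
    unfold DU
    rw [AddSubgroup.closure_le]
    rintro _ ⟨i, h1, h2, rfl⟩
    exact NN_U a t c hsq (hf i h1 h2)
  unfold NN
  rw [if_pos rfl]
  exact sup_le (le_refl _) h1

section law

variable {D : Set R} (hsq : ∀ X ∈ D, X * X = 0)
  (hxy : ∀ X ∈ D, ∀ Y ∈ D, X * Y * X * Y = 0)
  (hcl : ∀ X ∈ D, ∀ Y ∈ D, (1 + Y) * X * (1 + Y) ∈ D) (ha : ∀ i, a i ∈ D)

include hsq hxy hcl ha in
theorem inst_sound (C : Ctx a t c) (s : ℕ) (k : ℕ → ℕ → Bool) (h : inst t c s k = true) :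
    ∃ E s', k E s' = true ∧ Fn (fB a t c) E ∈ NN a t c (dc c) := by
  unfold inst at h
  rw [fr_eq, fr_eq, fr_eq, fr_eq, fr_eq, ifb_and, ifb_and] at h
  obtain ⟨hxa, hxb, h⟩ := h
  revert hxa hxb h
  generalize Nat.land s 4095 = al
  generalize Nat.land (Nat.shiftRight s 12) 4095 = v
  generalize Nat.land (Nat.shiftRight s 24) 4095 = xa
  generalize Nat.land (Nat.shiftRight s 36) 4095 = xb
  intro hxa hxb h
  have hxa := Nat.le_of_ble_eq_true hxa
  have hxb := Nat.le_of_ble_eq_true hxb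
  have hD : ∀ c, c < 64 → ckD t c = true := fun c hc => (ckB_parts (C.hB c hc)).2.2.1
  have hal : al ≤ c := by
    refine mul1_le t c (n := Nat.shiftLeft 1 v) ?_ h
    change 1 <<< v ≠ 0
    rw [Nat.one_shiftLeft]; positivity
  have hal64 : al < 64 := lt_of_le_of_lt hal C.hc
  have hbal : ∀ i, 4096 ≤ i → fB a t al i = 0 := by
    intro i hi
    obtain ⟨c1, c2, _⟩ := ckB_parts (C.hB al hal64)
    exact fB_big a t al i (by omega) c1
  have R0 : Rep a t c 0 [] (Vf a (fB a t al v) []) (dc al) al (St.v (Nat.shiftLeft 1 v)) := by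
    refine ⟨_, rfl, (en_dc hal64).symm, fun _ => dc_le al, ?_⟩
    change Fn (fB a t al) (1 <<< v) - _ ∈ _
    rw [Fn_one _ hbal]
    simp [Vf]
  obtain ⟨t1, s1, h1, R1⟩ := mapX_sound a t c C hxa 0 [] _ _ _ _ _ _ R0 h
  rw [fr_eq] at h1
  obtain ⟨hh, t2, s2, h2, hh3, R2⟩ := p1_sound a t c C (fB a t al v) xa 4095 [] _ _ t1 s1 _
    (by simp) R1 h1
  obtain ⟨t3, s3, h3, R3⟩ := mapX_sound a t c C hxb 0 _ _ _ _ _ _ _ R2 h2
  rw [fr_eq] at h3
  obtain ⟨t4, s4, h4, R4⟩ := p2_sound a t c C (fB a t al v) hh []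
    (Op.X xb :: (ops hh ++ [Op.X xa])) _ _ t3 s3 _ hh3 R3 h3
  obtain ⟨t5, s5, h5, R5⟩ := mapX_sound a t c C hxa 0 _ _ _ _ _ _ _ R4 h4
  rw [fr_eq] at h5
  obtain ⟨t6, b4, s6, h6, R6⟩ := p3_sound a t c C (fB a t al v) hh []
    (Op.X xa :: ((ops hh).reverse ++ Op.X xb :: (ops hh ++ [Op.X xa]))) _ _ t5 s5 _ hh3 R5 h5
  obtain ⟨t7, s7, h7, R7⟩ := mapX_sound a t c C hxb _ [] _ _ _ _ _ _ R6 h6
  rw [ifb_and] at h7
  obtain ⟨hc, h7⟩ := h7
  have hc := Nat.eq_of_beq_eq_true hc
  obtain ⟨E, rfl, hE1, hE2, hE3⟩ := R7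
  refine ⟨E, s7, h7, ?_⟩
  by_cases hE0 : E = 0
  · subst hE0
    rw [Fn_zero]; exact (NN a t c _).zero_mem
  · have hm3 := hE2 hE0
    have hb : b4 + inc xb = c := hc
    rw [hb] at hE1 hE3
    have hdc : dc c = dc al + ec xa + ec xb + ec xa + tsum (tg hh) + ec xb := by
      conv_lhs => rw [hE1]
      exact dc_en hm3
    have key := Vf_iw C.h2 hsq hxy hcl ha (fB a t al v) (fun j => (tg hh).reverse.getD j 0)
      (dc al) (fB_W a t hD al hal64 v) xa xb hxa hxb (ops hh).reverse
      (fun o ho => ops_hat hh o (List.mem_reverse.1 ho))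
      (fun j x hj => by
        obtain ⟨k1, _, k3⟩ := ops_mem hh hh3 j x (List.mem_reverse.1 hj)
        exact ⟨k1, k3⟩) (Finset.range (tg hh).length)
    have hct : ct (fun j => (tg hh).reverse.getD j 0) (dc al) (iw xa xb (ops hh).reverse)
        (Finset.range (tg hh).length) = dc c := by
      unfold ct
      rw [tsum_eq, hdc]
      have e1 : bs (ops hh) = 0 := bs_hat _ (ops_hat hh)
      have e2 : bs (ops hh).reverse = 0 :=
        bs_hat _ (fun o ho => ops_hat hh o (List.mem_reverse.1 ho))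
      simp only [iw, bs, bs_append, List.reverse_reverse, e1, e2]
      abel
    rw [hct] at key
    have e3 : iw xa xb (ops hh).reverse = Op.X xb :: (ops hh ++ Op.X xa ::
        ((ops hh).reverse ++ Op.X xb :: (ops hh ++ [Op.X xa]))) := by
      simp [iw]
    rw [e3] at key
    rw [← hdc] at hE3
    have h8 := (NN a t c (dc c)).add_mem hE3 (K_le_NN a t c _ (Hh_le_K a _ key))
    simpa [Vf] using h8

include hsq hxy hcl ha in
theorem cmds_sound (C : Ctx a t c) (w fuel : ℕ) :
    ∀ (s S G gs : ℕ) (k : ℕ → ℕ → ℕ → Bool),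
      Inv (fB a t c) (NN a t c (dc c)) w S G gs →
      cmds t c w (1 <<< w - 1) fuel s S G gs k = true →
      ∃ S' G' gs', k S' G' gs' = true ∧ Inv (fB a t c) (NN a t c (dc c)) w S' G' gs' := by
  have hbig : ∀ i, 4096 ≤ i → fB a t c i = 0 := by
    intro i hi
    obtain ⟨c1, c2, _⟩ := ckB_parts (C.hB c C.hc)
    exact fB_big a t c i (by omega) c1
  induction fuel with
  | zero => intro s S G gs k _ h; exact absurd h (by simp [cmds])
  | succ fuel ih =>
    intro s S G gs k hI h
    unfold cmds at h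
    dsimp only at h
    rw [fr_eq] at h
    revert h
    cases Nat.land s 4095 with
    | zero => intro h; exact ⟨S, G, gs, h, hI⟩
    | succ q =>
      intro h
      change ifb (Nat.beq q 0)
          (inst t c (Nat.shiftRight s 12) fun E s2 => act w (1 <<< w - 1) E s2 S G gs
            fun s3 S' G' gs' => cmds t c w (1 <<< w - 1) fuel s3 S' G' gs' k)
          (act w (1 <<< w - 1) 0 (Nat.shiftRight s 12) S G gs
            fun s3 S' G' gs' => cmds t c w (1 <<< w - 1) fuel s3 S' G' gs' k) = true at h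
      cases hq : Nat.beq q 0 with
      | true =>
        rw [hq] at h
        change inst t c (Nat.shiftRight s 12) (fun E s2 => act w (1 <<< w - 1) E s2 S G gs
            fun s3 S' G' gs' => cmds t c w (1 <<< w - 1) fuel s3 S' G' gs' k) = true at h
        obtain ⟨E, s2, h1, hE⟩ := inst_sound a t c hsq hxy hcl ha C _ _ h
        obtain ⟨s3, S', G', gs', h3, hI'⟩ := act_sound C.h2 _ hbig _ _ _ _ _ _ _ _ hI hE h1
        exact ih _ _ _ _ _ hI' h3
      | false =>
        rw [hq] at h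
        change act w (1 <<< w - 1) 0 (Nat.shiftRight s 12) S G gs
            (fun s3 S' G' gs' => cmds t c w (1 <<< w - 1) fuel s3 S' G' gs' k) = true at h
        obtain ⟨s3, S', G', gs', h3, hI'⟩ := act_sound C.h2 _ hbig _ _ _ _ _ _ _ _ hI
          (by rw [Fn_zero]; exact (NN a t c _).zero_mem) h
        exact ih _ _ _ _ _ hI' h3

include hsq hxy hcl ha in
theorem chunks_sound (C : Ctx a t c) (w m : ℕ) (l : List ℕ) :
    ∀ (S G gs : ℕ), Inv (fB a t c) (NN a t c (dc c)) w S G gs →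
      chunks t c w (1 <<< w - 1) m l S G gs = true →
      ∀ i, m.testBit i = false → fB a t c i ∈ NN a t c (dc c) := by
  induction l with
  | nil =>
    intro S G gs hI h i hi
    have : S = m := Nat.eq_of_beq_eq_true h
    subst this
    exact hI.2.1 i hi
  | cons s l ih =>
    intro S G gs hI h
    change cmds t c w (1 <<< w - 1) 4095 s S G gs (chunks t c w (1 <<< w - 1) m l) = true at h
    obtain ⟨S', G', gs', h1, hI'⟩ := cmds_sound a t c hsq hxy hcl ha C w 4095 _ _ _ _ _ hI h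
    exact ih S' G' gs' hI' h1

include hsq hxy hcl ha in
theorem ckS_sound (C : Ctx a t c) (l : List ℕ) (h : ckS t c l = true) :
    ∀ i, (t c).d ≤ i → fB a t c i ∈ NN a t c (dc c) := by
  obtain ⟨c1, c2, _⟩ := ckB_parts (C.hB c C.hc)
  unfold ckS at h
  rw [fr_eq, fr_eq, fr_eq] at h
  intro i hi
  refine chunks_sound a t c hsq hxy hcl ha C (t c).dp (1 <<< (t c).d - 1) l
    (1 <<< (t c).dp - 1) 0 0 ?_ h i ?_
  · refine ⟨?_, ?_, 0, by simp, ?_⟩
    · intro j
      rw [Nat.zero_shiftRight, Nat.zero_and, Fn_zero]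
      exact (NN a t c _).zero_mem
    · intro i hi
      rw [Nat.one_shiftLeft, Nat.testBit_two_pow_sub_one] at hi
      rw [fB_big a t c i (by simpa using hi) c1]
      exact (NN a t c _).zero_mem
    · intro i _
      exact Nat.zero_testBit i
  · rw [Nat.one_shiftLeft, Nat.testBit_two_pow_sub_one]
    simpa using hi

include hsq hxy hcl ha in
theorem all_ok (h2 : (2 : R) = 0) (hB : ∀ c, c < 64 → ckB t c = true)
    (hS : ∀ c, c < 64 → ∃ l, ckS t c l = true) (c : ℕ) (hc : c < 64) :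
    Ctx a t c ∧ NN a t c (dc c) ≤ K a (dc c) ∧
      ∀ i, (t c).d ≤ i → fB a t c i ∈ NN a t c (dc c) := by
  induction c using Nat.strong_induction_on with
  | _ c ih =>
  have C : Ctx a t c := by
    refine ⟨h2, fun x => hsq _ (ha x), hB, hc, ?_⟩
    intro B hBc i hi _
    obtain ⟨_, k1, k2⟩ := ih B hBc (by omega)
    exact k1 (k2 i hi)
  obtain ⟨l, hl⟩ := hS c hc
  have h3 := ckS_sound a t c hsq hxy hcl ha C l hl
  exact ⟨C, NN_le_K a t c C.hsq (fun i hi _ => h3 i hi), h3⟩

end law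

end checks

end Pool.Agent.L3E.UX
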